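import Mathlib

set_option autoImplicit false

namespace Pool.Agent.Work.MP_cf88b2_co

open Finset

variable {n : ℕ} [NeZero n]

/-- graph of an edge set -/
def gr (E : Finset (Sym2 (ZMod n))) : SimpleGraph (ZMod n) :=
  SimpleGraph.fromEdgeSet (E : Set (Sym2 (ZMod n)))

lemma gr_adj {E : Finset (Sym2 (ZMod n))} {x y : ZMod n} :
    (gr E).Adj x y ↔ s(x, y) ∈ E ∧ x ≠ y := by
  simp [gr]

lemma gr_mono {E F : Finset (Sym2 (ZMod n))} (h : E ⊆ F) : gr E ≤ gr F := by
  intro x y hxy
  rw [gr_adj] at hxy ⊢
  exact ⟨h hxy.1, hxy.2⟩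

/-- no two edges cross -/
def NC (E : Finset (Sym2 (ZMod n))) : Prop :=
  ∀ (a : ZMod n) (i j k l : ℕ), i < j → j < k → k < l → l < n →
      s(a + (i : ZMod n), a + (k : ZMod n)) ∈ E → s(a + (j : ZMod n), a + (l : ZMod n)) ∈ E → False

/-- degree of a vertex -/
def dgr (E : Finset (Sym2 (ZMod n))) (v : ZMod n) : ℕ := (E.filter (fun e => v ∈ e)).card

/-- non-crossing spanning trees with degrees at most `d`, as edge sets -/
structure Mem (d : ℕ) (E : Finset (Sym2 (ZMod n))) : Prop where
  loopless : ∀ e ∈ E, ¬ e.IsDiag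
  conn : (gr E).Connected
  card : E.card + 1 = n
  nc : NC E
  deg : ∀ v, dgr E v ≤ d

lemma cast_inj {i j : ℕ} (hi : i < n) (hj : j < n) : ((i : ZMod n) = j) ↔ i = j := by
  constructor
  · intro h
    have := congrArg ZMod.val h
    rwa [ZMod.val_cast_of_lt hi, ZMod.val_cast_of_lt hj] at this
  · rintro rfl; rfl

lemma add_cast_inj (a : ZMod n) {i j : ℕ} (hi : i < n) (hj : j < n) :
    (a + (i : ZMod n) = a + j) ↔ i = j := by
  rw [add_right_inj, cast_inj hi hj]

lemma exists_off (a x : ZMod n) : ∃ k, k < n ∧ x = a + (k : ZMod n) :=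
  ⟨(x - a).val, ZMod.val_lt _, by simp⟩

omit [NeZero n] in
lemma cast_n : ((n : ℕ) : ZMod n) = 0 := ZMod.natCast_self n

/-- the hull side between `i` and `i+1` -/
def side (i : ZMod n) : Sym2 (ZMod n) := s(i, i + 1)

lemma one_ne_zero' (hn : 3 ≤ n) : (1 : ZMod n) ≠ 0 := by
  have := (cast_inj (n := n) (i := 1) (j := 0) (by omega) (by omega)).not.mpr (by omega)
  simpa using this

lemma two_ne_zero' (hn : 3 ≤ n) : (2 : ZMod n) ≠ 0 := by
  have := (cast_inj (n := n) (i := 2) (j := 0) (by omega) (by omega)).not.mpr (by omega)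
  simpa using this

lemma side_inj (hn : 3 ≤ n) {i j : ZMod n} (h : side i = side j) : i = j := by
  unfold side at h
  rw [Sym2.eq_iff] at h
  rcases h with h | h
  · exact h.1
  · exfalso
    have h1 := h.1
    have h2 := h.2
    rw [h1] at h2
    have : (2 : ZMod n) = 0 := by
      have : j + 1 + 1 - j = 0 := by rw [h2]; ring
      have h3 : (j + 1 + 1 - j : ZMod n) = 2 := by ring
      rw [← h3, this]
    exact two_ne_zero' hn this

lemma side_not_diag (hn : 3 ≤ n) (i : ZMod n) : ¬ (side i).IsDiag := by
  unfold side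
  rw [Sym2.mk_isDiag_iff]
  intro h
  exact one_ne_zero' hn (by simpa using h.symm)

/-- hull sides in `E` -/
def H (E : Finset (Sym2 (ZMod n))) : Finset (ZMod n) := univ.filter (fun i => side i ∈ E)

/-- all hull sides -/
def sides : Finset (Sym2 (ZMod n)) := univ.image side

/-- diagonals in `E` -/
def Dg (E : Finset (Sym2 (ZMod n))) : Finset (Sym2 (ZMod n)) := E.filter (fun e => e ∉ sides)

lemma mem_sides {e : Sym2 (ZMod n)} : e ∈ (sides : Finset (Sym2 (ZMod n))) ↔ ∃ i, side i = e := by
  simp [sides]

lemma mem_H {E : Finset (Sym2 (ZMod n))} {i : ZMod n} : i ∈ H E ↔ side i ∈ E := by simp [H]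

lemma mem_Dg {E : Finset (Sym2 (ZMod n))} {e : Sym2 (ZMod n)} :
    e ∈ Dg E ↔ e ∈ E ∧ ∀ i, side i ≠ e := by
  simp [Dg, mem_sides]

lemma card_split (hn : 3 ≤ n) (E : Finset (Sym2 (ZMod n))) :
    (H E).card + (Dg E).card = E.card := by
  have h1 : (H E).card = (E.filter (fun e => e ∈ sides)).card := by
    rw [← Finset.card_image_of_injOn (s := H E) (f := side)
      (fun i _ j _ h => side_inj hn h)]
    congr 1
    ext e
    simp only [mem_image, mem_H, mem_filter, mem_sides]
    constructor
    · rintro ⟨i, hi, rfl⟩; exact ⟨hi, i, rfl⟩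
    · rintro ⟨he, i, rfl⟩; exact ⟨i, he, rfl⟩
  rw [h1, Dg, Finset.card_filter_add_card_filter_not]

/-- the arcs with offsets -/
lemma side_off (a : ZMod n) (k : ℕ) : side (a + (k : ZMod n)) = s(a + (k : ZMod n), a + ((k + 1 : ℕ) : ZMod n)) := by
  unfold side; push_cast; rw [add_assoc]

/-- a pair of offsets that is a side -/
lemma side_iff_off (hn : 3 ≤ n) (a : ZMod n) {i j : ℕ} (hij : i < j) (hj : j < n) :
    (∃ t, side t = s(a + (i : ZMod n), a + (j : ZMod n))) ↔ (j = i + 1 ∨ (i = 0 ∧ j = n - 1)) := by
  constructor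
  · rintro ⟨t, ht⟩
    unfold side at ht
    rw [Sym2.eq_iff] at ht
    rcases ht with ⟨h1, h2⟩ | ⟨h1, h2⟩
    · left
      rw [h1, add_assoc] at h2
      have h3 : ((i + 1 : ℕ) : ZMod n) = (j : ZMod n) := by
        push_cast; exact add_left_cancel h2
      rw [cast_inj (by omega) hj] at h3
      exact h3.symm
    · right
      rw [h1, add_assoc] at h2
      have h3 : ((j + 1 : ℕ) : ZMod n) = (i : ZMod n) := by
        push_cast; exact add_left_cancel h2
      by_cases hjn : j + 1 < n
      · rw [cast_inj hjn (by omega)] at h3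
        omega
      · have hjn' : j + 1 = n := by omega
        rw [hjn', cast_n] at h3
        have h4 : ((0 : ℕ) : ZMod n) = (i : ZMod n) := by simpa using h3
        rw [cast_inj (by omega) (by omega)] at h4
        omega
  · rintro (h | ⟨h1, h2⟩)
    · subst h
      exact ⟨a + i, side_off a i⟩
    · subst h1
      refine ⟨a + j, ?_⟩
      rw [side_off, h2, Nat.sub_add_cancel (by omega), cast_n (n := n), Sym2.eq_swap]
      simp


/-! ### connectivity -/

lemma conn_card {E : Finset (Sym2 (ZMod n))} (h : (gr E).Connected) : n ≤ E.card + 1 := by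
  have h1 := h.card_vert_le_card_edgeSet_add_one
  rw [Nat.card_eq_fintype_card, ZMod.card] at h1
  have h2 : Nat.card (gr E).edgeSet ≤ E.card := by
    have h3 : (gr E).edgeSet ⊆ (E : Set (Sym2 (ZMod n))) := by
      unfold gr
      rw [SimpleGraph.edgeSet_fromEdgeSet]
      exact Set.diff_subset
    calc Nat.card (gr E).edgeSet = (gr E).edgeSet.ncard := rfl
      _ ≤ (E : Set (Sym2 (ZMod n))).ncard := Set.ncard_le_ncard h3 (Finset.finite_toSet E)
      _ = E.card := Set.ncard_coe_finset E
  omega

lemma two_comp {E : Finset (Sym2 (ZMod n))} (h : (gr E).Connected) {a b : ZMod n}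
    (v : ZMod n) :
    (gr (E.erase s(a, b))).Reachable v a ∨ (gr (E.erase s(a, b))).Reachable v b := by
  have key : ∀ {x y : ZMod n} (p : (gr E).Walk x y),
      ((gr (E.erase s(a, b))).Reachable y a ∨ (gr (E.erase s(a, b))).Reachable y b) →
      ((gr (E.erase s(a, b))).Reachable x a ∨ (gr (E.erase s(a, b))).Reachable x b) := by
    intro x y p
    induction p with
    | nil => exact id
    | @cons u w z hadj p ih =>
      intro hy
      have hw := ih hy
      rw [gr_adj] at hadj
      by_cases he : s(u, w) = s(a, b)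
      · rw [Sym2.eq_iff] at he
        rcases he with ⟨h1, _⟩ | ⟨h1, _⟩
        · left; rw [h1]
        · right; rw [h1]
      · have : (gr (E.erase s(a, b))).Adj u w := by
          rw [gr_adj]
          exact ⟨Finset.mem_erase.mpr ⟨he, hadj.1⟩, hadj.2⟩
        rcases hw with hw | hw
        · left; exact this.reachable.trans hw
        · right; exact this.reachable.trans hw
  obtain ⟨p⟩ := h.preconnected v a
  exact key p (Or.inl (SimpleGraph.Reachable.refl _))

lemma swap_conn {E E' : Finset (Sym2 (ZMod n))} (h : (gr E).Connected) {a b : ZMod n}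
    (hsub : E.erase s(a, b) ⊆ E') (hr : (gr E').Reachable a b) : (gr E').Connected := by
  have hb : ∀ v, (gr E').Reachable v b := by
    intro v
    rcases two_comp h (a := a) (b := b) v with h1 | h1
    · exact (h1.mono (gr_mono hsub)).trans hr
    · exact h1.mono (gr_mono hsub)
  haveI : Nonempty (ZMod n) := ⟨0⟩
  exact SimpleGraph.Connected.mk (fun x y => (hb x).trans (hb y).symm)

lemma not_reach_erase {E : Finset (Sym2 (ZMod n))} (h : (gr E).Connected) (hc : E.card + 1 = n)
    {a b : ZMod n} (hab : s(a, b) ∈ E) : ¬ (gr (E.erase s(a, b))).Reachable a b := by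
  intro hr
  have h1 := swap_conn h (subset_refl _) hr
  have h2 := conn_card h1
  rw [Finset.card_erase_of_mem hab] at h2
  have : 0 < E.card := Finset.card_pos.mpr ⟨_, hab⟩
  omega

/-- exchange of `e` by `f` -/
def swap (E : Finset (Sym2 (ZMod n))) (e f : Sym2 (ZMod n)) : Finset (Sym2 (ZMod n)) :=
  insert f (E.erase e)

lemma card_swap {E : Finset (Sym2 (ZMod n))} {e f : Sym2 (ZMod n)} (he : e ∈ E) (hf : f ∉ E) :
    (swap E e f).card = E.card := by
  unfold swap
  rw [Finset.card_insert_of_notMem (by simp [hf]), Finset.card_erase_of_mem he]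
  have : 0 < E.card := Finset.card_pos.mpr ⟨_, he⟩
  omega

lemma dgr_swap_of_not_mem {E : Finset (Sym2 (ZMod n))} {e f : Sym2 (ZMod n)} {v : ZMod n}
    (hv : v ∉ f) : dgr (swap E e f) v ≤ dgr E v := by
  unfold dgr swap
  apply Finset.card_le_card
  intro x hx
  simp only [mem_filter, mem_insert, mem_erase] at hx ⊢
  rcases hx with ⟨h1 | h1, h2⟩
  · subst h1; exact absurd h2 hv
  · exact ⟨h1.2, h2⟩

lemma dgr_swap_le {E : Finset (Sym2 (ZMod n))} {e f : Sym2 (ZMod n)} {v : ZMod n} :
    dgr (swap E e f) v ≤ dgr E v + 1 := by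
  unfold dgr swap
  calc ((insert f (E.erase e)).filter (fun e => v ∈ e)).card
      ≤ (insert f (E.filter (fun e => v ∈ e))).card := by
        apply Finset.card_le_card
        intro x hx
        simp only [mem_filter, mem_insert, mem_erase] at hx ⊢
        rcases hx with ⟨h1 | h1, h2⟩
        · left; exact h1
        · right; exact ⟨h1.2, h2⟩
    _ ≤ _ := Finset.card_insert_le _ _

lemma dgr_swap_of_mem {E : Finset (Sym2 (ZMod n))} {e f : Sym2 (ZMod n)} {v : ZMod n}
    (he : e ∈ E) (hv : v ∈ e) : dgr (swap E e f) v ≤ dgr E v := by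
  unfold dgr swap
  have hmem : e ∈ E.filter (fun e => v ∈ e) := by simp [he, hv]
  calc ((insert f (E.erase e)).filter (fun e => v ∈ e)).card
      ≤ (insert f ((E.filter (fun e => v ∈ e)).erase e)).card := by
        apply Finset.card_le_card
        intro x hx
        simp only [mem_filter, mem_insert, mem_erase] at hx ⊢
        rcases hx with ⟨h1 | h1, h2⟩
        · left; exact h1
        · right; exact ⟨h1.1, h1.2, h2⟩
    _ ≤ ((E.filter (fun e => v ∈ e)).erase e).card + 1 := Finset.card_insert_le _ _
    _ = _ := by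
      rw [Finset.card_erase_of_mem hmem]
      have : 0 < (E.filter (fun e => v ∈ e)).card := Finset.card_pos.mpr ⟨_, hmem⟩
      omega

lemma cross_not_side (hn : 3 ≤ n) (a : ZMod n) {i j : ℕ} (hij : i + 2 ≤ j) (hj : j < n)
    (h0 : i ≠ 0 ∨ j ≠ n - 1) : ∀ t, side t ≠ s(a + (i : ZMod n), a + (j : ZMod n)) := by
  intro t ht
  have := (side_iff_off hn a (by omega : i < j) hj).mp ⟨t, ht⟩
  omega

lemma nc_of_subset_insert_side (hn : 3 ≤ n) {E E' : Finset (Sym2 (ZMod n))} (h : NC E)
    (t : ZMod n) (hsub : E' ⊆ insert (side t) E) : NC E' := by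
  intro a i j k l hij hjk hkl hl h1 h2
  have e1 := hsub h1
  have e2 := hsub h2
  rw [Finset.mem_insert] at e1 e2
  have n1 := cross_not_side hn a (i := i) (j := k) (by omega) (by omega) (by omega) t
  have n2 := cross_not_side hn a (i := j) (j := l) (by omega) (by omega) (by omega) t
  exact h a i j k l hij hjk hkl hl (e1.resolve_left (fun h => n1 h.symm))
    (e2.resolve_left (fun h => n2 h.symm))

/-- an ear of `E` inside the arc from `a` of length `M` -/
structure Ear (d : ℕ) (E : Finset (Sym2 (ZMod n))) (a : ZMod n) (M i m k : ℕ) : Prop where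
  him : i + m ≤ M
  hm : 2 ≤ m
  hk : k < m
  chord : s(a + (i : ZMod n), a + ((i + m : ℕ) : ZMod n)) ∈ E
  miss : side (a + ((i + k : ℕ) : ZMod n)) ∉ E
  mem : Mem d (swap E s(a + (i : ZMod n), a + ((i + m : ℕ) : ZMod n))
    (side (a + ((i + k : ℕ) : ZMod n))))

lemma exists_switch (p : ℕ → Prop) (h0 : p 0) : ∀ M, ¬ p M → ∃ k, k < M ∧ p k ∧ ¬ p (k + 1) := by
  intro M
  induction M with
  | zero => intro h; exact absurd h0 h
  | succ M ih =>
    intro h
    by_cases hM : p M
    · exact ⟨M, by omega, hM, h⟩
    · obtain ⟨k, hk, h1, h2⟩ := ih hM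
      exact ⟨k, by omega, h1, h2⟩

lemma inner_edges (hn : 3 ≤ n) {E : Finset (Sym2 (ZMod n))} (hl : ∀ e ∈ E, ¬ e.IsDiag)
    (hnc : NC E) {a : ZMod n} {M : ℕ} (hM : M + 2 ≤ n)
    (hch : s(a, a + (M : ZMod n)) ∈ E)
    (hin : ∀ i m : ℕ, i + m ≤ M → 2 ≤ m → m < M →
      s(a + (i : ZMod n), a + ((i + m : ℕ) : ZMod n)) ∉ E)
    {j : ℕ} (h0 : 0 < j) (hj : j < M) {e : Sym2 (ZMod n)} (he : e ∈ E)
    (hv : a + (j : ZMod n) ∈ e) :
    e = side (a + (j : ZMod n)) ∨ e = side (a + ((j - 1 : ℕ) : ZMod n)) := by
  obtain ⟨w, rfl⟩ := hv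
  obtain ⟨t, ht, rfl⟩ := exists_off a w
  have hne : t ≠ j := by
    rintro rfl
    exact hl _ he (by simp)
  by_cases h1 : M < t
  · exfalso
    refine hnc a 0 j M t h0 hj h1 ht ?_ he
    simpa using hch
  push Not at h1
  by_cases h2 : j + 2 ≤ t
  · exfalso
    refine hin j (t - j) (by omega) (by omega) (by omega) ?_
    rw [show j + (t - j) = t by omega]
    exact he
  by_cases h3 : t + 2 ≤ j
  · exfalso
    refine hin t (j - t) (by omega) (by omega) (by omega) ?_
    rw [show t + (j - t) = j by omega, Sym2.eq_swap]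
    exact he
  have h4 : t = j + 1 ∨ t + 1 = j := by omega
  rcases h4 with h4 | h4
  · left
    subst h4
    rw [side_off]
  · right
    subst h4
    rw [Nat.add_sub_cancel, side_off, Sym2.eq_swap]

lemma ear (hn : 3 ≤ n) {d : ℕ} (hd : 2 ≤ d) {E : Finset (Sym2 (ZMod n))} (hE : Mem d E) :
    ∀ (M : ℕ) (a : ZMod n), 2 ≤ M → M + 2 ≤ n → s(a, a + (M : ZMod n)) ∈ E →
      ∃ i m k, Ear d E a M i m k := by
  intro M
  induction M using Nat.strong_induction_on with
  | _ M IH =>
  intro a hM2 hMn hch
  by_cases hin : ∀ i m : ℕ, i + m ≤ M → 2 ≤ m → m < M →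
      s(a + (i : ZMod n), a + ((i + m : ℕ) : ZMod n)) ∉ E
  · -- innermost
    set p : ℕ → Prop := fun j => (gr (E.erase s(a, a + (M : ZMod n)))).Reachable (a + (j : ZMod n)) a
      with hp
    have hp0 : p 0 := by simp [hp]
    have hpM : ¬ p M := by
      intro h
      exact not_reach_erase hE.conn hE.card hch h.symm
    obtain ⟨k, hkM, hpk, hpk1⟩ := exists_switch p hp0 M hpM
    have hchs : ∀ t, side t ≠ s(a, a + (M : ZMod n)) := by
      have := cross_not_side hn a (i := 0) (j := M) (by omega) (by omega) (by omega)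
      simpa using this
    have hmiss : side (a + (k : ZMod n)) ∉ E := by
      intro h
      apply hpk1
      have hadj : (gr (E.erase s(a, a + (M : ZMod n)))).Adj (a + ((k + 1 : ℕ) : ZMod n))
          (a + (k : ZMod n)) := by
        rw [gr_adj]
        refine ⟨?_, ?_⟩
        · have h2 : s(a + ((k + 1 : ℕ) : ZMod n), a + (k : ZMod n)) = side (a + (k : ZMod n)) := by
            rw [side_off, Sym2.eq_swap]
          rw [h2]
          exact Finset.mem_erase.mpr ⟨hchs _, h⟩
        · rw [Ne, add_cast_inj a (by omega) (by omega)]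
          omega
      exact hadj.reachable.trans hpk
    have hpk2 : (gr (E.erase s(a, a + (M : ZMod n)))).Reachable (a + ((k + 1 : ℕ) : ZMod n))
        (a + (M : ZMod n)) := by
      rcases two_comp hE.conn (a := a) (b := a + (M : ZMod n)) (a + ((k + 1 : ℕ) : ZMod n)) with h | h
      · exact absurd h hpk1
      · exact h
    have hsub : E.erase s(a, a + (M : ZMod n)) ⊆
        swap E s(a, a + (M : ZMod n)) (side (a + (k : ZMod n))) := Finset.subset_insert _ _
    refine ⟨0, M, k, by omega, hM2, hkM, by simpa using hch, by simpa using hmiss, ?_⟩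
    have hmem : Mem d (swap E s(a, a + (M : ZMod n)) (side (a + (k : ZMod n)))) := by
      refine ⟨?_, ?_, ?_, ?_, ?_⟩
      · intro e he
        rw [swap, Finset.mem_insert] at he
        rcases he with rfl | he
        · exact side_not_diag hn _
        · exact hE.loopless e (Finset.mem_of_mem_erase he)
      · apply swap_conn hE.conn hsub
        have h1 : (gr (swap E s(a, a + (M : ZMod n)) (side (a + (k : ZMod n))))).Adj
            (a + (k : ZMod n)) (a + ((k + 1 : ℕ) : ZMod n)) := by
          rw [gr_adj]
          refine ⟨?_, ?_⟩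
          · rw [← side_off]; exact Finset.mem_insert_self _ _
          · rw [Ne, add_cast_inj a (by omega) (by omega)]
            omega
        exact ((hpk.mono (gr_mono hsub)).symm.trans h1.reachable).trans (hpk2.mono (gr_mono hsub))
      · rw [card_swap hch hmiss]; exact hE.card
      · apply nc_of_subset_insert_side hn hE.nc (a + (k : ZMod n))
        intro x hx
        rw [swap, Finset.mem_insert] at hx
        rw [Finset.mem_insert]
        rcases hx with h | h
        · left; exact h
        · right; exact Finset.mem_of_mem_erase h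
      · intro v
        by_cases hv : v ∈ side (a + (k : ZMod n))
        · rw [side_off] at hv
          rw [Sym2.mem_iff] at hv
          rcases hv with hv | hv
          · subst hv
            by_cases hk0 : k = 0
            · subst hk0
              refine (dgr_swap_of_mem hch ?_).trans (hE.deg _)
              simp
            · have hdeg : dgr E (a + (k : ZMod n)) ≤ 1 := by
                unfold dgr
                rw [Finset.card_le_one_iff_subset_singleton]
                refine ⟨side (a + ((k - 1 : ℕ) : ZMod n)), ?_⟩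
                intro e he
                rw [mem_filter] at he
                rw [mem_singleton]
                rcases inner_edges hn hE.loopless hE.nc hMn hch hin (by omega) hkM he.1 he.2 with h | h
                · rw [h] at he; exact absurd he.1 hmiss
                · exact h
              have := dgr_swap_le (E := E) (e := s(a, a + (M : ZMod n)))
                (f := side (a + (k : ZMod n))) (v := a + (k : ZMod n))
              omega
          · subst hv
            by_cases hk0 : k + 1 = M
            · refine (dgr_swap_of_mem hch ?_).trans (hE.deg _)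
              rw [hk0]; simp
            · have hdeg : dgr E (a + ((k + 1 : ℕ) : ZMod n)) ≤ 1 := by
                unfold dgr
                rw [Finset.card_le_one_iff_subset_singleton]
                refine ⟨side (a + ((k + 1 : ℕ) : ZMod n)), ?_⟩
                intro e he
                rw [mem_filter] at he
                rw [mem_singleton]
                rcases inner_edges hn hE.loopless hE.nc hMn hch hin (by omega)
                  (show k + 1 < M by omega) he.1 he.2 with h | h
                · exact h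
                · rw [h, Nat.add_sub_cancel] at he; exact absurd he.1 hmiss
              have := dgr_swap_le (E := E) (e := s(a, a + (M : ZMod n)))
                (f := side (a + (k : ZMod n))) (v := a + ((k + 1 : ℕ) : ZMod n))
              omega
        · exact (dgr_swap_of_not_mem hv).trans (hE.deg _)
    simpa using hmem
  · push Not at hin
    obtain ⟨i, m, him, hm2, hmM, hE1⟩ := hin
    have h1 : s(a + (i : ZMod n), a + (i : ZMod n) + (m : ZMod n)) ∈ E := by
      have : a + (i : ZMod n) + (m : ZMod n) = a + ((i + m : ℕ) : ZMod n) := by push_cast; ring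
      rw [this]; exact hE1
    obtain ⟨i', m', k', hear⟩ := IH m hmM (a + (i : ZMod n)) hm2 (by omega) h1
    refine ⟨i + i', m', k', ?_, hear.hm, hear.hk, ?_, ?_, ?_⟩
    · have := hear.him; omega
    · have := hear.chord
      push_cast at this ⊢
      simpa [add_assoc] using this
    · have := hear.miss
      push_cast at this ⊢
      simpa [add_assoc] using this
    · have := hear.mem
      push_cast at this ⊢
      simpa [add_assoc] using this

end Pool.Agent.Work.MP_cf88b2_co
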