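import Mathlib

set_option autoImplicit false

namespace Pool.Agent.Work.MP_cf88b2_co

/-- the straight-line drawing of `T` on the points `P` has no crossing: two different edges
meet only in common end points -/
def PlaneDrawing {n : ℕ} (P : Fin n → ℝ × ℝ) (T : SimpleGraph (Fin n)) : Prop :=
  ∀ a b c d : Fin n, T.Adj a b → T.Adj c d → s(a, b) ≠ s(c, d) →
    segment ℝ (P a) (P b) ∩ segment ℝ (P c) (P d) ⊆ P '' ({a, b} ∩ {c, d})

/-- plane spanning trees of `P` with all degrees at most `d` -/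
def PlaneTree {n : ℕ} (P : Fin n → ℝ × ℝ) (d : ℕ) : Type :=
  {T : SimpleGraph (Fin n) // T.IsTree ∧ PlaneDrawing P T ∧ ∀ v, (T.neighborSet v).ncard ≤ d}

/-- the graph of the plane spanning trees of maximum degree at most `d`: two trees are adjacent
when they share exactly `n - 2` edges -/
def treeGraph {n : ℕ} (P : Fin n → ℝ × ℝ) (d : ℕ) : SimpleGraph (PlaneTree P d) where
  Adj T U := T ≠ U ∧ (T.1.edgeSet ∩ U.1.edgeSet).ncard = n - 2
  symm := ⟨fun T U h => ⟨h.1.symm, by rw [Set.inter_comm]; exact h.2⟩⟩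
  loopless := ⟨fun T h => h.1 rfl⟩

end Pool.Agent.Work.MP_cf88b2_co
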