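import Pool.Agent.Work.MP_cf88b2_co.Fix

set_option autoImplicit false

namespace Pool.Agent.Work.MP_cf88b2_co

open Finset

variable {n : ℕ} [NeZero n] {d : ℕ}

/-- edge sets moved by a map of the vertices -/
def mv (f : ZMod n ≃ ZMod n) (E : Finset (Sym2 (ZMod n))) : Finset (Sym2 (ZMod n)) :=
  E.image (Sym2.map f)

lemma map_inj (f : ZMod n ≃ ZMod n) : Function.Injective (Sym2.map f) := Sym2.map.injective f.injective

lemma mem_mv {f : ZMod n ≃ ZMod n} {E : Finset (Sym2 (ZMod n))} {x y : ZMod n} :
    s(x, y) ∈ mv f E ↔ s(f.symm x, f.symm y) ∈ E := by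
  unfold mv
  rw [mem_image]
  constructor
  · rintro ⟨e, he, h⟩
    induction e using Sym2.ind with
    | _ a b =>
    rw [Sym2.map_mk] at h
    have h2 : s(f.symm (f a), f.symm (f b)) = s(f.symm x, f.symm y) := by
      rw [← Sym2.map_mk, ← Sym2.map_mk, ← Sym2.map_mk]
      exact congrArg (Sym2.map f.symm) h
    simp only [Equiv.symm_apply_apply] at h2
    rw [← h2]; exact he
  · intro h
    exact ⟨_, h, by rw [Sym2.map_mk]; simp⟩

/-- the graph isomorphism induced by moving -/
def mvIso (f : ZMod n ≃ ZMod n) (E : Finset (Sym2 (ZMod n))) : gr E ≃g gr (mv f E) where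
  toEquiv := f
  map_rel_iff' := by
    intro a b
    rw [gr_adj, gr_adj, mem_mv]
    simp

lemma mv_mem {f : ZMod n ≃ ZMod n} {E : Finset (Sym2 (ZMod n))}
    (hnc : NC (mv f E)) (hE : Mem d E) : Mem d (mv f E) := by
  refine ⟨?_, ?_, ?_, hnc, ?_⟩
  · intro e he hdiag
    induction e using Sym2.ind with
    | _ x y =>
    rw [mem_mv] at he
    apply hE.loopless _ he
    rw [Sym2.mk_isDiag_iff] at hdiag ⊢
    rw [hdiag]
  · exact (mvIso f E).connected_iff.mp hE.conn
  · unfold mv
    rw [Finset.card_image_of_injective _ (map_inj f)]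
    exact hE.card
  · intro v
    have h : (mv f E).filter (fun e => v ∈ e) = (E.filter (fun e => f.symm v ∈ e)).image (Sym2.map f) := by
      ext e
      rw [mem_filter, mem_image]
      constructor
      · rintro ⟨h1, h2⟩
        unfold mv at h1
        rw [mem_image] at h1
        obtain ⟨e', he', rfl⟩ := h1
        refine ⟨e', ?_, rfl⟩
        rw [mem_filter]
        refine ⟨he', ?_⟩
        rw [Sym2.mem_map] at h2
        obtain ⟨a, ha, rfl⟩ := h2
        simpa using ha
      · rintro ⟨e', he', rfl⟩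
        rw [mem_filter] at he'
        refine ⟨Finset.mem_image_of_mem _ he'.1, ?_⟩
        rw [Sym2.mem_map]
        exact ⟨_, he'.2, by simp⟩
    unfold dgr
    rw [h, Finset.card_image_of_injective _ (map_inj f)]
    exact hE.deg _

/-- the dihedral group acting on the vertices -/
def act : DihedralGroup n → ZMod n → ZMod n
  | .r i, x => x + i
  | .sr i, x => -x - i

omit [NeZero n] in
lemma act_mul (g h : DihedralGroup n) (x : ZMod n) : act (g * h) x = act g (act h x) := by
  rcases g with i | i <;> rcases h with j | j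
  · rw [DihedralGroup.r_mul_r]; simp only [act]; ring
  · rw [DihedralGroup.r_mul_sr]; simp only [act]; ring
  · rw [DihedralGroup.sr_mul_r]; simp only [act]; ring
  · rw [DihedralGroup.sr_mul_sr]; simp only [act]; ring

omit [NeZero n] in
lemma act_one (x : ZMod n) : act (1 : DihedralGroup n) x = x := by
  rw [DihedralGroup.one_def]; simp [act]

/-- the same as a permutation -/
def actE (g : DihedralGroup n) : ZMod n ≃ ZMod n where
  toFun := act g
  invFun := act g⁻¹
  left_inv x := by rw [← act_mul, inv_mul_cancel, act_one]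
  right_inv x := by rw [← act_mul, mul_inv_cancel, act_one]

lemma actE_apply (g : DihedralGroup n) (x : ZMod n) : actE g x = act g x := rfl

lemma nc_act (g : DihedralGroup n) {E : Finset (Sym2 (ZMod n))} (h : NC E) : NC (mv (actE g) E) := by
  intro a i j k l hij hjk hkl hl h1 h2
  rw [mem_mv] at h1 h2
  rcases g with t | t
  · have e : ∀ x : ℕ, (actE (DihedralGroup.r t)).symm (a + (x : ZMod n)) = (a - t) + (x : ZMod n) := by
      intro x
      rw [Equiv.symm_apply_eq, actE_apply]
      simp only [act]; ring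
    rw [e, e] at h1 h2
    exact h (a - t) i j k l hij hjk hkl hl h1 h2
  · have e : ∀ x : ℕ, x < n → (actE (DihedralGroup.sr t)).symm (a + (x : ZMod n)) =
        (-a - t + 1) + ((n - 1 - x : ℕ) : ZMod n) := by
      intro x hx
      rw [Equiv.symm_apply_eq, actE_apply]
      simp only [act]
      rw [Nat.cast_sub (by omega), Nat.cast_sub (by omega), cast_n (n := n)]; push_cast; ring
    rw [e i (by omega), e k (by omega)] at h1
    rw [e j (by omega), e l (by omega)] at h2
    refine h (-a - t + 1) (n - 1 - l) (n - 1 - k) (n - 1 - j) (n - 1 - i) (by omega) (by omega) (by omega) (by omega) ?_ ?_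
    · rw [Sym2.eq_swap]; exact h2
    · rw [Sym2.eq_swap]; exact h1

lemma mv_mv (f g : ZMod n ≃ ZMod n) (E : Finset (Sym2 (ZMod n))) : mv f (mv g E) = mv (g.trans f) E := by
  unfold mv
  rw [Finset.image_image]
  congr 1
  ext e
  induction e using Sym2.ind with
  | _ x y => simp

lemma mv_refl (E : Finset (Sym2 (ZMod n))) : mv (Equiv.refl _) E = E := by
  unfold mv
  have : Sym2.map (Equiv.refl (ZMod n)) = id := by
    ext e
    simp
  rw [this, Finset.image_id]

lemma actE_mul (g h : DihedralGroup n) : (actE h).trans (actE g) = actE (g * h) := by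
  ext x
  show act g (act h x) = act (g * h) x
  rw [act_mul]

lemma actE_one : actE (1 : DihedralGroup n) = Equiv.refl _ := by
  ext x
  exact act_one x

/-- a dihedral symmetry acting on trees -/
def mvT (g : DihedralGroup n) (E : Tr n d) : Tr n d := ⟨mv (actE g) E.1, mv_mem (nc_act g E.2.nc) E.2⟩

lemma mvT_mul (g h : DihedralGroup n) (E : Tr n d) : mvT (g * h) E = mvT g (mvT h E) := by
  apply Subtype.ext
  show mv _ _ = mv _ (mv _ _)
  rw [mv_mv, actE_mul]

lemma mvT_one (E : Tr n d) : mvT 1 E = E := by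
  apply Subtype.ext
  show mv _ _ = _
  rw [actE_one, mv_refl]

/-- the symmetry as an automorphism -/
def rhoIso (g : DihedralGroup n) : cg n d ≃g cg n d where
  toFun := mvT g
  invFun := mvT g⁻¹
  left_inv E := by rw [← mvT_mul, inv_mul_cancel, mvT_one]
  right_inv E := by rw [← mvT_mul, mul_inv_cancel, mvT_one]
  map_rel_iff' := by
    intro E F
    show (cg n d).Adj (mvT g E) (mvT g F) ↔ _
    rw [adj_iff, adj_iff]
    show (mv (actE g) E.1 ∩ mv (actE g) F.1).card + 2 = n ↔ _
    unfold mv
    rw [← Finset.image_inter _ _ (map_inj _), Finset.card_image_of_injective _ (map_inj _)]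

/-- the homomorphism from the dihedral group -/
def rho : DihedralGroup n →* (cg n d ≃g cg n d) where
  toFun := rhoIso
  map_one' := by
    ext E : 1
    exact mvT_one E
  map_mul' g h := by
    ext E : 1
    exact mvT_mul g h E

/-- action on sides -/
def actS : DihedralGroup n → ZMod n → ZMod n
  | .r i, j => i + j
  | .sr i, j => -1 - i - j

lemma map_side (g : DihedralGroup n) (j : ZMod n) : Sym2.map (actE g) (side j) = side (actS g j) := by
  rcases g with i | i
  · unfold side
    rw [Sym2.map_mk]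
    show s(j + i, j + 1 + i) = s(i + j, i + j + 1)
    rw [show j + i = i + j by ring, show j + 1 + i = i + j + 1 by ring]
  · unfold side
    rw [Sym2.map_mk, Sym2.eq_swap]
    show s(-(j + 1) - i, -j - i) = s(-1 - i - j, -1 - i - j + 1)
    rw [show -(j + 1) - i = -1 - i - j by ring, show -j - i = -1 - i - j + 1 by ring]

lemma actS_surj (g : DihedralGroup n) : Function.Surjective (actS g) := by
  intro j
  rcases g with i | i
  · exact ⟨j - i, by simp only [actS]; ring⟩
  · exact ⟨-1 - i - j, by simp only [actS]; ring⟩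

lemma rho_PP (hn : 3 ≤ n) (hd : 3 ≤ d) (g : DihedralGroup n) (j : ZMod n) :
    rho g (PP (d := d) hn hd j) = PP hn hd (actS g j) := by
  apply Subtype.ext
  show mv (actE g) (Pt j) = Pt (actS g j)
  unfold mv Pt
  rw [Finset.image_erase (map_inj _), map_side]
  congr 1
  unfold sides
  rw [Finset.image_image]
  ext e
  simp only [mem_image, mem_univ, true_and, Function.comp_apply, map_side]
  constructor
  · rintro ⟨a, rfl⟩; exact ⟨_, rfl⟩
  · rintro ⟨a, rfl⟩
    obtain ⟨b, rfl⟩ := actS_surj g a
    exact ⟨b, rfl⟩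

lemma rho_inj (hn : 3 ≤ n) (hd : 3 ≤ d) : Function.Injective (rho (n := n) (d := d)) := by
  intro g h hgh
  have key : ∀ j, actS g j = actS h j := by
    intro j
    apply PP_inj (d := d) hn hd
    rw [← rho_PP, ← rho_PP, hgh]
  have k0 := key 0
  have k1 := key 1
  rcases g with i | i <;> rcases h with j | j
  · simp only [actS, add_zero] at k0
    rw [k0]
  · exfalso
    simp only [actS] at k0 k1
    apply two_ne_zero' hn
    have : (i + 1 : ZMod n) - (i + 0) = (-1 - j - 1) - (-1 - j - 0) := by rw [k0, k1]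
    have h2 : (2 : ZMod n) = ((i + 1 : ZMod n) - (i + 0)) - ((-1 - j - 1) - (-1 - j - 0)) := by ring
    rw [h2, this]; ring
  · exfalso
    simp only [actS] at k0 k1
    apply two_ne_zero' hn
    have : (j + 1 : ZMod n) - (j + 0) = (-1 - i - 1) - (-1 - i - 0) := by rw [k0, k1]
    have h2 : (2 : ZMod n) = ((j + 1 : ZMod n) - (j + 0)) - ((-1 - i - 1) - (-1 - i - 0)) := by ring
    rw [h2, this]; ring
  · simp only [actS, sub_zero] at k0
    rw [sub_right_inj] at k0
    rw [k0]

lemma rho_surj (hn : 4 ≤ n) (hd : 3 ≤ d) (hW : WB n d) : Function.Surjective (rho (n := n) (d := d)) := by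
  have hn3 : 3 ≤ n := by omega
  intro φ
  obtain ⟨g, hg⟩ : ∃ g : DihedralGroup n, ∀ i, sg hn3 hd hW φ i = actS g i := by
    rcases sg_form hn hd hW φ with h | h
    · exact ⟨DihedralGroup.r (sg hn3 hd hW φ 0), fun i => by rw [h i]; rfl⟩
    · refine ⟨DihedralGroup.sr (-1 - sg hn3 hd hW φ 0), fun i => ?_⟩
      rw [h i]; simp only [actS]; ring
  refine ⟨g, ?_⟩
  -- the correction fixes all sides
  set ψ : cg n d ≃g cg n d := (rho g)⁻¹ * φ with hψ
  have hψP : ∀ j, ψ (PP hn3 hd j) = PP hn3 hd j := by
    intro j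
    show (rho g)⁻¹ (φ (PP hn3 hd j)) = _
    rw [sg_spec hn3 hd hW, hg, ← rho_PP]
    have h3 : (rho g)⁻¹ * rho g = (1 : cg n d ≃g cg n d) := inv_mul_cancel _
    exact DFunLike.congr_fun h3 _
  have hsg : ∀ j, sg hn3 hd hW ψ j = j := by
    intro j
    apply PP_inj (d := d) hn3 hd
    rw [← sg_spec, hψP]
  have h1 : ∀ E, ψ E = E := by
    apply fix_all hn3 hd ψ
    · intro E; exact Dg_card_map hn3 hd hW _ ψ E rfl
    · intro E
      rw [H_map hn3 hd hW ψ _ E rfl]
      have : sg hn3 hd hW ψ = id := funext hsg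
      rw [this, Finset.image_id]
  have h2 : ψ = 1 := by
    ext E : 1
    exact h1 E
  rw [hψ, inv_mul_eq_one] at h2
  exact h2

/-- the core theorem -/
theorem core (hn : 4 ≤ n) (hd : 3 ≤ d) (hW : WB n d) :
    Nonempty ((cg n d ≃g cg n d) ≃* DihedralGroup n) :=
  ⟨(MulEquiv.ofBijective rho ⟨rho_inj (by omega) hd, rho_surj hn hd hW⟩).symm⟩

end Pool.Agent.Work.MP_cf88b2_co
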