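import Pool.Agent.Work.MP_cf88b2_co.Rigid

set_option autoImplicit false

namespace Pool.Agent.Work.MP_cf88b2_co

open Finset

variable {n : ℕ} [NeZero n] {d : ℕ}

lemma D1_adj {E F : Tr n d} (hE : (Dg E.1).card = 1) (hF : (Dg F.1).card = 1)
    (h : (cg n d).Adj E F) (hH : H E.1 ≠ H F.1) : Dg E.1 = Dg F.1 := by
  obtain ⟨e, f, he, hf, hFe⟩ := exists_swap h
  obtain ⟨e1, h1⟩ := Finset.card_eq_one.mp hE
  obtain ⟨e2, h2⟩ := Finset.card_eq_one.mp hF
  have m1 : e1 ∈ E.1 ∧ ∀ i, side i ≠ e1 := by
    rw [← mem_Dg, h1]; exact mem_singleton_self _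
  have m2 : e2 ∈ F.1 ∧ ∀ i, side i ≠ e2 := by
    rw [← mem_Dg, h2]; exact mem_singleton_self _
  by_cases heq : e1 = e2
  · rw [h1, h2, heq]
  · exfalso
    have n1 : e1 ∉ F.1 := by
      intro hm
      have : e1 ∈ Dg F.1 := mem_Dg.mpr ⟨hm, m1.2⟩
      rw [h2, mem_singleton] at this
      exact heq this
    have n2 : e2 ∉ E.1 := by
      intro hm
      have : e2 ∈ Dg E.1 := mem_Dg.mpr ⟨hm, m2.2⟩
      rw [h1, mem_singleton] at this
      exact heq this.symm
    have ee : e1 = e := by
      by_contra hne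
      apply n1
      rw [hFe, swap, mem_insert, mem_erase]
      exact Or.inr ⟨hne, m1.1⟩
    have ef : e2 = f := by
      have := m2.1
      rw [hFe, swap, mem_insert, mem_erase] at this
      rcases this with h | h
      · exact h
      · exact absurd h.2 n2
    apply hH
    ext i
    rw [mem_H, mem_H, hFe, swap, mem_insert, mem_erase, ← ee, ← ef]
    constructor
    · intro hi
      exact Or.inr ⟨m1.2 i, hi⟩
    · rintro (hi | hi)
      · exact absurd hi (m2.2 i)
      · exact hi.2

/-- an arc spanned by an edge has a missing side -/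
lemma exists_missing (hn : 3 ≤ n) (E : Tr n d) (u : ZMod n) {m : ℕ} (hm : 2 ≤ m) (hmn : m + 2 ≤ n)
    (hch : s(u, u + (m : ZMod n)) ∈ E.1) : ∃ k, k < m ∧ side (u + (k : ZMod n)) ∉ E.1 := by
  by_contra hcon
  push Not at hcon
  apply not_reach_erase E.2.conn E.2.card hch
  have := path_reach (E := E.1.erase s(u, u + (m : ZMod n))) u (x := 0) (y := m) (by omega) (by omega) ?_
  · simpa using this
  · intro j _ hj
    rw [mem_erase]
    refine ⟨?_, hcon j hj⟩
    have := cross_not_side hn u (i := 0) (j := m) (by omega) (by omega) (by omega) (u + (j : ZMod n))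
    simpa using this

lemma two_missing (hn : 3 ≤ n) (E : Tr n d) (hE : (Dg E.1).card = 1) {i j t : ZMod n} (hij : i ≠ j)
    (h1 : side i ∉ E.1) (h2 : side j ∉ E.1) (hi : t ≠ i) (hj : t ≠ j) : side t ∈ E.1 := by
  have hmem : E ∈ MM d i j := ⟨hE, by rwa [mem_H], by rwa [mem_H]⟩
  have := H_of_MM hn hij hmem
  rw [← mem_H, this, mem_erase, mem_erase]
  exact ⟨hj, hi, mem_univ _⟩

/-- moving the missing side within an arc -/
lemma move_mem (hn : 3 ≤ n) (hd : 3 ≤ d) (E : Tr n d) (hE : (Dg E.1).card = 1) (u : ZMod n) {m k k' : ℕ}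
    (hm : 2 ≤ m) (hmn : m + 2 ≤ n) (hch : s(u, u + (m : ZMod n)) ∈ E.1) (hk : k < m) (hk' : k' < m)
    (hkk : k' ≠ k) (hmiss : side (u + (k : ZMod n)) ∉ E.1)
    (hall : ∀ j, j < m → j ≠ k → side (u + (j : ZMod n)) ∈ E.1) :
    Mem d (swap E.1 (side (u + (k' : ZMod n))) (side (u + (k : ZMod n)))) := by
  have hnew : ∀ j, j < m → j ≠ k' → side (u + (j : ZMod n)) ∈
      swap E.1 (side (u + (k' : ZMod n))) (side (u + (k : ZMod n))) := by
    intro j hj hjk
    rw [swap, mem_insert, mem_erase]
    by_cases hjk2 : j = k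
    · left; rw [hjk2]
    · right
      refine ⟨?_, hall j hj hjk2⟩
      intro h
      have := side_inj hn h
      rw [add_cast_inj u (by omega) (by omega)] at this
      exact hjk this
  have hchs := cross_not_side hn u (i := 0) (j := m) (by omega) (by omega) (by omega)
  apply mem_of_card_Dg hn hd
  · intro e he
    rw [swap, mem_insert, mem_erase] at he
    rcases he with rfl | he
    · exact side_not_diag hn _
    · exact E.2.loopless e he.2
  · rw [side_off u k']
    apply swap_conn E.2.conn (Finset.subset_insert _ _)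
    rw [← side_off u k']
    change (gr (swap E.1 (side (u + (k' : ZMod n))) (side (u + (k : ZMod n))))).Reachable _ _
    have h1 := path_reach u (x := 0) (y := k') (by omega) (by omega)
      (fun j _ h2 => hnew j (by omega) (by omega))
    have h2 := path_reach u (x := k' + 1) (y := m) (by omega) (by omega)
      (fun j h1 h2 => hnew j (by omega) (by omega))
    have h3 : (gr (swap E.1 (side (u + (k' : ZMod n))) (side (u + (k : ZMod n))))).Adj
        (u + ((0 : ℕ) : ZMod n)) (u + (m : ZMod n)) := by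
      rw [gr_adj]
      refine ⟨?_, ?_⟩
      · rw [swap, mem_insert, mem_erase]
        right
        refine ⟨(hchs _).symm, by simpa using hch⟩
      · rw [Ne, add_cast_inj u (by omega) (by omega)]; omega
    exact (h1.symm.trans h3.reachable).trans h2.symm
  · rw [card_swap (hall k' hk' hkk) hmiss]
    exact E.2.card
  · have : Dg (swap E.1 (side (u + (k' : ZMod n))) (side (u + (k : ZMod n)))) ⊆ Dg E.1 := by
      intro x hx
      rw [mem_Dg, swap, mem_insert, mem_erase] at hx
      rw [mem_Dg]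
      rcases hx with ⟨h | h, h2⟩
      · exact absurd h.symm (h2 _)
      · exact ⟨h.2, h2⟩
    exact (Finset.card_le_card this).trans (by omega)

lemma Dg_swap_sides {E : Finset (Sym2 (ZMod n))} (i j : ZMod n) :
    Dg (swap E (side i) (side j)) = Dg E := by
  ext x
  rw [mem_Dg, mem_Dg, swap, mem_insert, mem_erase]
  constructor
  · rintro ⟨h | h, h2⟩
    · exact absurd h.symm (h2 _)
    · exact ⟨h.2, h2⟩
  · rintro ⟨h1, h2⟩
    exact ⟨Or.inr ⟨(h2 i).symm, h1⟩, h2⟩

/-- one step: put the missing side of the arc `(u, m)` at offset `k'` -/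
lemma step_arc (hn : 3 ≤ n) (hd : 3 ≤ d) (φ : cg n d ≃g cg n d)
    (hφD : ∀ E : Tr n d, (Dg E.1).card = 1 → (Dg (φ E).1).card = 1)
    (hφH : ∀ E : Tr n d, (Dg E.1).card = 1 → H (φ E).1 = H E.1)
    (E : Tr n d) (hE : (Dg E.1).card = 1) (u : ZMod n) {m k' : ℕ}
    (hm : 2 ≤ m) (hmn : m + 2 ≤ n) (hch : s(u, u + (m : ZMod n)) ∈ E.1) (hk' : k' < m) :
    ∃ F : Tr n d, (Dg F.1).card = 1 ∧ Dg F.1 = Dg E.1 ∧ Dg (φ F).1 = Dg (φ E).1 ∧
      side (u + (k' : ZMod n)) ∉ F.1 ∧
      (∀ t : ℕ, m ≤ t → t < n → (side (u + (t : ZMod n)) ∉ E.1) → side (u + (t : ZMod n)) ∉ F.1) := by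
  obtain ⟨k, hk, hmiss⟩ := exists_missing hn E u hm hmn hch
  by_cases hkk : k' = k
  · subst hkk
    exact ⟨E, hE, rfl, rfl, hmiss, fun _ _ _ h => h⟩
  · -- the other arc has a missing side too
    have hch2 : s(u + (m : ZMod n), u + (m : ZMod n) + ((n - m : ℕ) : ZMod n)) ∈ E.1 := by
      have : u + (m : ZMod n) + ((n - m : ℕ) : ZMod n) = u := by
        rw [Nat.cast_sub (by omega), cast_n (n := n)]; ring
      rw [this, Sym2.eq_swap]; exact hch
    obtain ⟨k2, hk2, hmiss2⟩ := exists_missing hn E (u + (m : ZMod n)) (m := n - m) (by omega) (by omega) hch2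
    have e2 : u + (m : ZMod n) + (k2 : ZMod n) = u + ((m + k2 : ℕ) : ZMod n) := by push_cast; ring
    rw [e2] at hmiss2
    have hall : ∀ j, j < m → j ≠ k → side (u + (j : ZMod n)) ∈ E.1 := by
      intro j hj hjk
      apply two_missing hn E hE (i := u + (k : ZMod n)) (j := u + ((m + k2 : ℕ) : ZMod n)) _ hmiss hmiss2
      · rw [Ne, add_cast_inj u (by omega) (by omega)]; omega
      · rw [Ne, add_cast_inj u (by omega) (by omega)]; omega
      · rw [Ne, add_cast_inj u (by omega) (by omega)]; omega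
    have hmem := move_mem hn hd E hE u hm hmn hch hk hk' hkk hmiss hall
    have hDF : Dg (swap E.1 (side (u + (k' : ZMod n))) (side (u + (k : ZMod n)))) = Dg E.1 :=
      Dg_swap_sides _ _
    set F : Tr n d := ⟨_, hmem⟩ with hF
    have hF1 : (Dg F.1).card = 1 := by
      show (Dg (swap E.1 (side (u + (k' : ZMod n))) (side (u + (k : ZMod n))))).card = 1
      rw [hDF]; exact hE
    have hadj : (cg n d).Adj E F := adj_swap (hall k' hk' hkk) hmiss hmem
    have hnotk' : side (u + (k' : ZMod n)) ∉ F.1 := by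
      show side (u + (k' : ZMod n)) ∉ swap E.1 (side (u + (k' : ZMod n))) (side (u + (k : ZMod n)))
      rw [swap, mem_insert, mem_erase]
      rintro (h | h)
      · have := side_inj hn h
        rw [add_cast_inj u (by omega) (by omega)] at this
        exact hkk this
      · exact h.1 rfl
    refine ⟨F, hF1, hDF, ?_, hnotk', ?_⟩
    · symm
      apply D1_adj (hφD E hE) (hφD F hF1) (φ.map_adj_iff.mpr hadj)
      rw [hφH E hE, hφH F hF1]
      intro h
      have h1 : u + (k' : ZMod n) ∈ H E.1 := mem_H.mpr (hall k' hk' hkk)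
      rw [h, mem_H] at h1
      exact hnotk' h1
    · intro t ht htn hte
      show side (u + (t : ZMod n)) ∉ swap E.1 (side (u + (k' : ZMod n))) (side (u + (k : ZMod n)))
      rw [swap, mem_insert, mem_erase]
      rintro (h | h)
      · have := side_inj hn h
        rw [add_cast_inj u (by omega) (by omega)] at this
        omega
      · exact hte h.2

/-- the end `u` of the diagonal of `E` lies on the diagonal of `φ E` -/
lemma end_mem (hn : 3 ≤ n) (hd : 3 ≤ d) (φ : cg n d ≃g cg n d)
    (hφD : ∀ E : Tr n d, (Dg E.1).card = 1 → (Dg (φ E).1).card = 1)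
    (hφH : ∀ E : Tr n d, (Dg E.1).card = 1 → H (φ E).1 = H E.1)
    (E : Tr n d) (hE : (Dg E.1).card = 1) (u : ZMod n) {m : ℕ}
    (hm : 2 ≤ m) (hmn : m + 2 ≤ n) (hch : s(u, u + (m : ZMod n)) ∈ E.1)
    {e : Sym2 (ZMod n)} (he : Dg (φ E).1 = {e}) : u ∈ e := by
  obtain ⟨F, hF1, hF2, hF3, hF4, _⟩ := step_arc hn hd φ hφD hφH E hE u (k' := 0) hm hmn hch (by omega)
  have hchs := cross_not_side hn u (i := 0) (j := m) (by omega) (by omega) (by omega)
  have hchD : s(u, u + (m : ZMod n)) ∈ Dg E.1 := by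
    rw [mem_Dg]; exact ⟨hch, by simpa using hchs⟩
  have hchF : s(u, u + (m : ZMod n)) ∈ F.1 := by
    rw [← hF2] at hchD
    exact (mem_Dg.mp hchD).1
  have hch2 : s(u + (m : ZMod n), u + (m : ZMod n) + ((n - m : ℕ) : ZMod n)) ∈ F.1 := by
    have : u + (m : ZMod n) + ((n - m : ℕ) : ZMod n) = u := by
      rw [Nat.cast_sub (by omega), cast_n (n := n)]; ring
    rw [this, Sym2.eq_swap]; exact hchF
  obtain ⟨G, hG1, hG2, hG3, hG4, hG5⟩ := step_arc hn hd φ hφD hφH F hF1 (u + (m : ZMod n)) (m := n - m)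
    (k' := n - m - 1) (by omega) (by omega) hch2 (by omega)
  have e3 : u + (m : ZMod n) + ((n - m - 1 : ℕ) : ZMod n) = u - 1 := by
    rw [Nat.cast_sub (by omega), Nat.cast_sub (by omega), cast_n (n := n)]; push_cast; ring
  rw [e3] at hG4
  have e4 : u + (m : ZMod n) + ((n - m : ℕ) : ZMod n) = u := by
    rw [Nat.cast_sub (by omega), cast_n (n := n)]; ring
  have hG6 : side u ∉ G.1 := by
    have := hG5 (n - m) le_rfl (by omega) (by rw [e4]; simpa using hF4)
    rwa [e4] at this
  have hDG : Dg (φ G).1 = {e} := by rw [hG3, hF3, he]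
  apply diag_at hn hDG
  · rw [hφH G hG1, mem_H]; exact hG6
  · rw [hφH G hG1, mem_H]; exact hG4

/-- trees with one diagonal are fixed -/
lemma fix_one (hn : 3 ≤ n) (hd : 3 ≤ d) (φ : cg n d ≃g cg n d)
    (hφD : ∀ E : Tr n d, (Dg E.1).card = 1 → (Dg (φ E).1).card = 1)
    (hφH : ∀ E : Tr n d, (Dg E.1).card = 1 → H (φ E).1 = H E.1)
    (E : Tr n d) (hE : (Dg E.1).card = 1) : φ E = E := by
  obtain ⟨e0, he0⟩ := Finset.card_eq_one.mp hE
  obtain ⟨e, he⟩ := Finset.card_eq_one.mp (hφD E hE)
  have hm0 : e0 ∈ Dg E.1 := by rw [he0]; exact mem_singleton_self _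
  obtain ⟨p, q, hpq, hq, h0, rfl⟩ := diag_off hn E.2.loopless 0 hm0
  have hch0 := (mem_Dg.mp hm0).1
  set u : ZMod n := 0 + (p : ZMod n) with hu
  have huq : (0 : ZMod n) + (q : ZMod n) = u + ((q - p : ℕ) : ZMod n) := by
    rw [hu, Nat.cast_sub (by omega)]; ring
  rw [huq] at hch0 he0
  have hm2 : 2 ≤ q - p := by omega
  have hmn : q - p + 2 ≤ n := by omega
  have h1 := end_mem hn hd φ hφD hφH E hE u hm2 hmn hch0 he
  have hch2 : s(u + ((q - p : ℕ) : ZMod n), u + ((q - p : ℕ) : ZMod n) + ((n - (q - p) : ℕ) : ZMod n)) ∈ E.1 := by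
    have : u + ((q - p : ℕ) : ZMod n) + ((n - (q - p) : ℕ) : ZMod n) = u := by
      rw [Nat.cast_sub (show q - p ≤ n by omega), cast_n (n := n)]; ring
    rw [this, Sym2.eq_swap]; exact hch0
  have h2 := end_mem hn hd φ hφD hφH E hE (u + ((q - p : ℕ) : ZMod n)) (m := n - (q - p)) (by omega) (by omega) hch2 he
  have hne : u ≠ u + ((q - p : ℕ) : ZMod n) := by
    have := (add_cast_inj u (i := 0) (j := q - p) (by omega) (by omega)).not.mpr (by omega)
    simpa using this
  have hee : e = s(u, u + ((q - p : ℕ) : ZMod n)) := by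
    exact (Sym2.mem_and_mem_iff hne).mp ⟨h1, h2⟩
  apply Subtype.ext
  apply eq_of_H_Dg (hφH E hE)
  rw [he, hee, he0]

/-- an automorphism fixing all sides is the identity -/
lemma fix_all (hn : 3 ≤ n) (hd : 3 ≤ d) (φ : cg n d ≃g cg n d)
    (hφD : ∀ E : Tr n d, (Dg (φ E).1).card = (Dg E.1).card)
    (hφH : ∀ E : Tr n d, H (φ E).1 = H E.1) : ∀ E : Tr n d, φ E = E := by
  have key : ∀ (k : ℕ) (E : Tr n d), (Dg E.1).card = k → φ E = E := by
    intro k
    induction k using Nat.strong_induction_on with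
    | _ k IH =>
    intro E hk
    rcases k with _ | _ | k
    · apply Subtype.ext
      apply eq_of_H_Dg (hφH E)
      rw [Finset.card_eq_zero] at hk
      rw [hk]
      rw [← Finset.card_eq_zero, hφD, hk]; simp
    · exact fix_one hn hd φ (fun E h => by rw [hφD, h]) (fun E _ => hφH E) E hk
    · obtain ⟨e1, t1, e2, t2, r1, r2, _, he⟩ := two_red hn (by omega) E.2 (Finset.card_pos.mp (by omega))
      have hne := he (by omega)
      have key2 : ∀ e t, Red d E.1 e t → E.1.erase e ⊆ (φ E).1 := by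
        intro e t r
        have c := r.card_Dg
        have h1 := IH (k + 1) (by omega) ⟨_, r.mem⟩ (by show (Dg (swap _ _ _)).card = k + 1; omega)
        have h2 := φ.map_adj_iff.mpr r.adj
        rw [h1, adj_iff] at h2
        change ((φ E).1 ∩ swap E.1 e (side t)).card + 2 = n at h2
        have hmE := (mem_Dg.mp r.dg).1
        have hsub : (φ E).1 ∩ swap E.1 e (side t) ⊆ E.1.erase e := by
          intro x hx
          rw [mem_inter, swap, mem_insert] at hx
          rcases hx with ⟨h3, h4 | h4⟩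
          · exfalso
            subst h4
            have : t ∈ H (φ E).1 := mem_H.mpr h3
            rw [hφH E] at this
            exact r.miss this
          · exact h4
        have heq := Finset.eq_of_subset_of_card_le hsub (by
          rw [Finset.card_erase_of_mem hmE]
          have := E.2.card
          omega)
        rw [← heq]
        exact Finset.inter_subset_left
      have hsub : E.1 ⊆ (φ E).1 := by
        intro x hx
        by_cases hx1 : x = e1
        · apply key2 _ _ r2
          rw [mem_erase]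
          exact ⟨by rw [hx1]; exact hne, hx⟩
        · apply key2 _ _ r1
          rw [mem_erase]
          exact ⟨hx1, hx⟩
      apply Subtype.ext
      symm
      apply Finset.eq_of_subset_of_card_le hsub
      have h1 := E.2.card
      have h2 := (φ E).2.card
      omega
  intro E
  exact key _ E rfl

end Pool.Agent.Work.MP_cf88b2_co
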