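import Mathlib

set_option autoImplicit false

namespace Pool.Agent.Work.MP_cf88b2_co

/-- twice the signed area of the triangle abc -/
def det3 (a b c : ℝ × ℝ) : ℝ := (b.1 - a.1) * (c.2 - a.2) - (b.2 - a.2) * (c.1 - a.1)

theorem det3_rot (a b c : ℝ × ℝ) : det3 b c a = det3 a b c := by unfold det3; ring

theorem det3_swap (a b c : ℝ × ℝ) : det3 a c b = -det3 a b c := by unfold det3; ring

theorem det3_affine (a b x y : ℝ × ℝ) (s t : ℝ) (h : s + t = 1) :
    det3 a b (s • x + t • y) = s * det3 a b x + t * det3 a b y := by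
  unfold det3
  simp only [Prod.fst_add, Prod.smul_fst, Prod.snd_add, Prod.smul_snd, smul_eq_mul]
  have : s = 1 - t := by linarith
  subst this
  ring

theorem det3_left (a b : ℝ × ℝ) : det3 a b a = 0 := by unfold det3; ring

theorem det3_right (a b : ℝ × ℝ) : det3 a b b = 0 := by unfold det3; ring

/-- no point of a convexly independent family is a convex combination of three others -/
theorem no_comb {n : ℕ} {P : Fin n → ℝ × ℝ} (hP : ConvexIndependent ℝ P) {i j k x : Fin n}
    (hi : x ≠ i) (hj : x ≠ j) (hk : x ≠ k) {a b c : ℝ} (ha : 0 ≤ a) (hb : 0 ≤ b) (hc : 0 ≤ c)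
    (hs : a + b + c = 1) (h : P x = a • P i + b • P j + c • P k) : False := by
  have h1 : P x ∈ convexHull ℝ (P '' {i, j, k}) := by
    rw [h]
    have hconv := convex_convexHull ℝ (P '' ({i, j, k} : Set (Fin n)))
    have mi : P i ∈ convexHull ℝ (P '' {i, j, k}) := subset_convexHull ℝ _ ⟨i, by simp, rfl⟩
    have mj : P j ∈ convexHull ℝ (P '' {i, j, k}) := subset_convexHull ℝ _ ⟨j, by simp, rfl⟩
    have mk : P k ∈ convexHull ℝ (P '' {i, j, k}) := subset_convexHull ℝ _ ⟨k, by simp, rfl⟩
    rcases eq_or_lt_of_le (add_nonneg ha hb) with h0 | h0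
    · have ha0 : a = 0 := by linarith
      have hb0 : b = 0 := by linarith
      have hc1 : c = 1 := by linarith
      rw [ha0, hb0, hc1]
      simpa using mk
    · have key : a • P i + b • P j + c • P k
          = (a + b) • ((a / (a + b)) • P i + (b / (a + b)) • P j) + c • P k := by
        rw [smul_add, smul_smul, smul_smul, mul_div_cancel₀ _ h0.ne', mul_div_cancel₀ _ h0.ne']
      rw [key]
      apply hconv _ mk h0.le hc (by linarith)
      exact hconv mi mj (by positivity) (by positivity) (by field_simp)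
  have h2 := hP {i, j, k} x h1
  simp only [Set.mem_insert_iff, Set.mem_singleton_iff] at h2
  tauto

theorem det3_ne {n : ℕ} {P : Fin n → ℝ × ℝ} (hP : ConvexIndependent ℝ P) {a b c : Fin n}
    (hab : a ≠ b) (hac : a ≠ c) (hbc : b ≠ c) : det3 (P a) (P b) (P c) ≠ 0 := by
  intro h
  have hinj := hP.injective
  have hne : P a ≠ P b := fun e => hab (hinj e)
  -- v = t u
  obtain ⟨t, ht1, ht2⟩ : ∃ t : ℝ, (P c).1 - (P a).1 = t * ((P b).1 - (P a).1) ∧
      (P c).2 - (P a).2 = t * ((P b).2 - (P a).2) := by
    unfold det3 at h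
    by_cases h1 : (P b).1 - (P a).1 = 0
    · have h2 : (P b).2 - (P a).2 ≠ 0 := by
        intro h2
        apply hne
        ext
        · linarith
        · linarith
      refine ⟨((P c).2 - (P a).2) / ((P b).2 - (P a).2), ?_, ?_⟩
      · rw [h1] at h ⊢
        have : ((P b).2 - (P a).2) * ((P c).1 - (P a).1) = 0 := by linarith
        rcases mul_eq_zero.1 this with h3 | h3
        · exact absurd h3 h2
        · rw [h3]; ring
      · field_simp
    · refine ⟨((P c).1 - (P a).1) / ((P b).1 - (P a).1), ?_, ?_⟩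
      · field_simp
      · field_simp
        linarith
  rcases lt_or_ge t 0 with h0 | h0
  · -- a between b and c
    refine no_comb hP (x := a) (i := b) (j := c) (k := c) hab hac hac (a := -t / (1 - t))
      (b := 1 / (1 - t)) (c := 0) (div_nonneg (by linarith) (by linarith))
      (div_nonneg (by linarith) (by linarith)) le_rfl ?_ ?_
    · have : (1 : ℝ) - t ≠ 0 := by linarith
      field_simp
      ring
    · have hh : (1 : ℝ) - t ≠ 0 := by linarith
      ext
      · simp only [Prod.fst_add, Prod.smul_fst, smul_eq_mul]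
        field_simp
        linarith
      · simp only [Prod.snd_add, Prod.smul_snd, smul_eq_mul]
        field_simp
        linarith
  rcases le_or_gt t 1 with h1 | h1
  · -- c between a and b
    refine no_comb hP (x := c) (i := a) (j := b) (k := b) hac.symm hbc.symm hbc.symm
      (a := 1 - t) (b := t) (c := 0) (by linarith) h0 le_rfl (by ring) ?_
    ext
    · simp only [Prod.fst_add, Prod.smul_fst, smul_eq_mul]
      linarith
    · simp only [Prod.snd_add, Prod.smul_snd, smul_eq_mul]
      linarith
  · -- b between a and c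
    refine no_comb hP (x := b) (i := a) (j := c) (k := c) hab.symm hbc hbc
      (a := (t - 1) / t) (b := 1 / t) (c := 0) (div_nonneg (by linarith) (by linarith))
      (by positivity) le_rfl ?_ ?_
    · have : t ≠ 0 := by linarith
      field_simp
      ring
    · have hh : t ≠ 0 := by linarith
      ext
      · simp only [Prod.fst_add, Prod.smul_fst, smul_eq_mul]
        field_simp
        linarith
      · simp only [Prod.snd_add, Prod.smul_snd, smul_eq_mul]
        field_simp
        linarith

/-- four points: if `j` lies angularly between `i` and `k` as seen from `b`, the triangle `ijk`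
is positively oriented -/
theorem det3_pos_of {n : ℕ} {P : Fin n → ℝ × ℝ} (hP : ConvexIndependent ℝ P) {b i j k : Fin n}
    (hjb : j ≠ b) (hji : j ≠ i) (hjk : j ≠ k)
    (h1 : 0 < det3 (P b) (P i) (P j)) (h2 : 0 < det3 (P b) (P j) (P k))
    (h3 : 0 < det3 (P b) (P i) (P k)) : 0 < det3 (P i) (P j) (P k) := by
  by_contra hcon
  push Not at hcon
  have hid : det3 (P i) (P j) (P k)
      = det3 (P b) (P i) (P j) + det3 (P b) (P j) (P k) - det3 (P b) (P i) (P k) := by
    unfold det3; ring
  set D := det3 (P b) (P i) (P k) with hD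
  refine no_comb hP (x := j) (i := b) (j := i) (k := k) hjb hji hjk
    (a := -det3 (P i) (P j) (P k) / D) (b := det3 (P b) (P j) (P k) / D)
    (c := det3 (P b) (P i) (P j) / D) (div_nonneg (by linarith) h3.le) (by positivity)
    (by positivity) ?_ ?_
  · field_simp
    linarith
  · have hD0 : D ≠ 0 := h3.ne'
    ext
    · simp only [Prod.fst_add, Prod.smul_fst, smul_eq_mul]
      field_simp
      rw [hD]
      unfold det3
      ring
    · simp only [Prod.snd_add, Prod.smul_snd, smul_eq_mul]
      field_simp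
      rw [hD]
      unfold det3
      ring

/-- G1: points in convex position can be sorted counterclockwise. -/
theorem exists_ccw {n : ℕ} (P : Fin n → ℝ × ℝ) (hP : ConvexIndependent ℝ P) (h3 : 3 ≤ n) :
    ∃ s : Fin n ≃ Fin n, ∀ i j k : Fin n, i < j → j < k →
      0 < det3 (P (s i)) (P (s j)) (P (s k)) := by
  classical
  have : Nonempty (Fin n) := ⟨⟨0, by omega⟩⟩
  have hinj := hP.injective
  obtain ⟨b, hb⟩ := Finite.exists_min (fun i => toLex (P i))
  have hb' : ∀ j, j ≠ b → (P b).1 < (P j).1 ∨ ((P b).1 = (P j).1 ∧ (P b).2 < (P j).2) := by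
    intro j hj
    have h1 := hb j
    rw [Prod.Lex.toLex_le_toLex] at h1
    rcases h1 with h1 | ⟨h1, h2⟩
    · exact Or.inl h1
    · right
      refine ⟨h1, lt_of_le_of_ne h2 ?_⟩
      intro h4
      exact hj (hinj (Prod.ext h1.symm h4.symm))
  set r : Fin n → Fin n → Prop := fun j k =>
    (j = b ∧ k ≠ b) ∨ (j ≠ b ∧ k ≠ b ∧ 0 < det3 (P b) (P j) (P k)) with hr
  have hirr : ∀ j, ¬ r j j := by
    rintro j (⟨h1, h2⟩ | ⟨-, -, h⟩)
    · exact h2 h1
    · rw [det3_right] at h
      exact lt_irrefl _ h
  have htrans : ∀ i j k, r i j → r j k → r i k := by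
    rintro i j k (⟨h1, h2⟩ | ⟨h1, h2, h4⟩) (⟨h5, h6⟩ | ⟨h5, h6, h7⟩)
    · exact absurd h5 h2
    · exact Or.inl ⟨h1, h6⟩
    · exact absurd h5 h2
    · right
      refine ⟨h1, h6, ?_⟩
      have Hi := hb' i h1
      have Hj := hb' j h2
      have Hk := hb' k h6
      unfold det3 at h4 h7 ⊢
      set u1 := (P i).1 - (P b).1
      set u2 := (P i).2 - (P b).2
      set v1 := (P j).1 - (P b).1
      set v2 := (P j).2 - (P b).2
      set w1 := (P k).1 - (P b).1
      set w2 := (P k).2 - (P b).2
      have Hu : 0 < u1 ∨ (u1 = 0 ∧ 0 < u2) := by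
        rcases Hi with h | ⟨h, h'⟩
        · left; simp only [u1]; linarith
        · right; simp only [u1, u2]; constructor <;> linarith
      have Hv : 0 < v1 ∨ (v1 = 0 ∧ 0 < v2) := by
        rcases Hj with h | ⟨h, h'⟩
        · left; simp only [v1]; linarith
        · right; simp only [v1, v2]; constructor <;> linarith
      have Hw : 0 < w1 ∨ (w1 = 0 ∧ 0 < w2) := by
        rcases Hk with h | ⟨h, h'⟩
        · left; simp only [w1]; linarith
        · right; simp only [w1, w2]; constructor <;> linarith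
      have hw0 : 0 ≤ w1 := by rcases Hw with h | ⟨h, -⟩ <;> linarith
      have hv : 0 < v1 := by
        rcases Hv with h | ⟨h, h'⟩
        · exact h
        · exfalso
          rw [h] at h7
          nlinarith
      have hu : 0 < u1 := by
        rcases Hu with h | ⟨h, h'⟩
        · exact h
        · exfalso
          rw [h] at h4
          nlinarith
      have key : v1 * (u1 * w2 - u2 * w1) = u1 * (v1 * w2 - v2 * w1) + w1 * (u1 * v2 - u2 * v1) := by
        ring
      have hpos : 0 < v1 * (u1 * w2 - u2 * w1) := by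
        rw [key]
        have e1 : 0 < u1 * (v1 * w2 - v2 * w1) := mul_pos hu h7
        have e2 : 0 ≤ w1 * (u1 * v2 - u2 * v1) := mul_nonneg hw0 h4.le
        linarith
      exact (mul_pos_iff_of_pos_left hv).1 hpos
  have htri : ∀ j k, j ≠ k → r j k ∨ r k j := by
    intro j k hjk
    by_cases hj : j = b
    · left; left; exact ⟨hj, fun h => hjk (hj.trans h.symm)⟩
    by_cases hk : k = b
    · right; left; exact ⟨hk, hj⟩
    have hne := det3_ne hP (a := b) (b := j) (c := k) (Ne.symm hj) (Ne.symm hk) hjk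
    rcases lt_or_gt_of_ne hne with h | h
    · right; right
      refine ⟨hk, hj, ?_⟩
      rw [det3_swap]
      linarith
    · left; right
      exact ⟨hj, hk, h⟩
  set f : Fin n → ℕ := fun j => (Finset.univ.filter (fun x => r x j)).card with hf
  have hflt : ∀ j k, r j k → f j < f k := by
    intro j k hjk
    apply Finset.card_lt_card
    rw [Finset.ssubset_iff_of_subset]
    · refine ⟨j, by simpa using hjk, by simpa using hirr j⟩
    · intro x hx
      rw [Finset.mem_filter] at hx ⊢
      exact ⟨hx.1, htrans x j k hx.2 hjk⟩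
  have hrf : ∀ j k, f j < f k → r j k := by
    intro j k h
    have hne : j ≠ k := by rintro rfl; exact lt_irrefl _ h
    rcases htri j k hne with h' | h'
    · exact h'
    · exact absurd (hflt k j h') (by omega)
  have hfinj : Function.Injective f := by
    intro j k h
    by_contra hne
    rcases htri j k hne with h' | h'
    · exact absurd (hflt j k h') (by omega)
    · exact absurd (hflt k j h') (by omega)
  have hmono : StrictMono (f ∘ Tuple.sort f) :=
    (Tuple.monotone_sort f).strictMono_of_injective (hfinj.comp (Tuple.sort f).injective)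
  refine ⟨Tuple.sort f, ?_⟩
  intro i j k hij hjk
  have r1 : r (Tuple.sort f i) (Tuple.sort f j) := hrf _ _ (hmono hij)
  have r2 : r (Tuple.sort f j) (Tuple.sort f k) := hrf _ _ (hmono hjk)
  have r3 : r (Tuple.sort f i) (Tuple.sort f k) := hrf _ _ (hmono (hij.trans hjk))
  have n1 : Tuple.sort f j ≠ Tuple.sort f i := fun h => hij.ne ((Tuple.sort f).injective h).symm
  have n2 : Tuple.sort f j ≠ Tuple.sort f k := fun h => hjk.ne ((Tuple.sort f).injective h)
  rcases r2 with ⟨e1, e2⟩ | ⟨e1, e2, e3⟩
  · exfalso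
    rcases r1 with ⟨g1, g2⟩ | ⟨g1, g2, g3⟩
    · exact g2 e1
    · exact g2 e1
  · rcases r1 with ⟨g1, g2⟩ | ⟨g1, g2, g3⟩
    · rw [g1]; exact e3
    · rcases r3 with ⟨k1, k2⟩ | ⟨k1, k2, k3⟩
      · exact absurd k1 g1
      · exact det3_pos_of hP e1 n1 n2 g3 e3 k3

/-- G2: for counterclockwise sorted points two segments with four distinct ends meet iff the
ends interleave. -/
theorem segments_meet {n : ℕ} (Q : Fin n → ℝ × ℝ)
    (hQ : ∀ i j k : Fin n, i < j → j < k → 0 < det3 (Q i) (Q j) (Q k))
    {a b c d : Fin n} (h1 : a < b) (h2 : b < c) (h3 : c < d) :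
    (segment ℝ (Q a) (Q c) ∩ segment ℝ (Q b) (Q d)).Nonempty ∧
    segment ℝ (Q a) (Q b) ∩ segment ℝ (Q c) (Q d) = ∅ ∧
    segment ℝ (Q a) (Q d) ∩ segment ℝ (Q b) (Q c) = ∅ := by
  have habc := hQ a b c h1 h2
  have habd := hQ a b d h1 (h2.trans h3)
  have hacd := hQ a c d (h1.trans h2) h3
  have hbcd := hQ b c d h2 h3
  refine ⟨?_, ?_, ?_⟩
  · have hW : det3 (Q b) (Q c) (Q d) + det3 (Q a) (Q b) (Q d)
        = det3 (Q a) (Q c) (Q d) + det3 (Q a) (Q b) (Q c) := by unfold det3; ring
    set W := det3 (Q a) (Q c) (Q d) + det3 (Q a) (Q b) (Q c) with hWd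
    have hWpos : 0 < W := by positivity
    have hW0 : W ≠ 0 := hWpos.ne'
    refine ⟨(det3 (Q b) (Q c) (Q d) / W) • Q a + (det3 (Q a) (Q b) (Q d) / W) • Q c, ?_, ?_⟩
    · exact ⟨_, _, by positivity, by positivity, by rw [← add_div, hW, div_self hW0], rfl⟩
    · refine ⟨det3 (Q a) (Q c) (Q d) / W, det3 (Q a) (Q b) (Q c) / W, by positivity,
        by positivity, by rw [← add_div, div_self hW0], ?_⟩
      ext
      · simp only [Prod.fst_add, Prod.smul_fst, smul_eq_mul]
        field_simp
        unfold det3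
        ring
      · simp only [Prod.snd_add, Prod.smul_snd, smul_eq_mul]
        field_simp
        unfold det3
        ring
  · rw [Set.eq_empty_iff_forall_notMem]
    rintro z ⟨⟨s, t, hs, ht, hst, rfl⟩, ⟨s', t', hs', ht', hst', he⟩⟩
    have e1 : det3 (Q a) (Q b) (s • Q a + t • Q b) = 0 := by
      rw [det3_affine _ _ _ _ _ _ hst, det3_left, det3_right]; ring
    rw [← he, det3_affine _ _ _ _ _ _ hst'] at e1
    have : 0 < s' * det3 (Q a) (Q b) (Q c) + t' * det3 (Q a) (Q b) (Q d) := by
      rcases eq_or_lt_of_le hs' with h | h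
      · have : t' = 1 := by linarith
        rw [← h, this]; linarith
      · have e2 := mul_pos h habc
        have e3 := mul_nonneg ht' habd.le
        linarith
    linarith
  · rw [Set.eq_empty_iff_forall_notMem]
    rintro z ⟨⟨s, t, hs, ht, hst, rfl⟩, ⟨s', t', hs', ht', hst', he⟩⟩
    have e1 : det3 (Q a) (Q d) (s • Q a + t • Q d) = 0 := by
      rw [det3_affine _ _ _ _ _ _ hst, det3_left, det3_right]; ring
    rw [← he, det3_affine _ _ _ _ _ _ hst', det3_swap (Q a) (Q b) (Q d),
      det3_swap (Q a) (Q c) (Q d)] at e1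
    have : 0 < s' * det3 (Q a) (Q b) (Q d) + t' * det3 (Q a) (Q c) (Q d) := by
      rcases eq_or_lt_of_le hs' with h | h
      · have : t' = 1 := by linarith
        rw [← h, this]; linarith
      · have e2 := mul_pos h habd
        have e3 := mul_nonneg ht' hacd.le
        linarith
    linarith

theorem det3_ne_of_sorted {n : ℕ} (Q : Fin n → ℝ × ℝ)
    (hQ : ∀ i j k : Fin n, i < j → j < k → 0 < det3 (Q i) (Q j) (Q k))
    {a b c : Fin n} (h1 : a ≠ b) (h2 : a ≠ c) (h3 : b ≠ c) : det3 (Q a) (Q b) (Q c) ≠ 0 := by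
  have E1 : det3 (Q b) (Q c) (Q a) = det3 (Q a) (Q b) (Q c) := det3_rot _ _ _
  have E2 : det3 (Q c) (Q a) (Q b) = det3 (Q a) (Q b) (Q c) := by unfold det3; ring
  have E3 : det3 (Q a) (Q c) (Q b) = -det3 (Q a) (Q b) (Q c) := det3_swap _ _ _
  have E4 : det3 (Q b) (Q a) (Q c) = -det3 (Q a) (Q b) (Q c) := by unfold det3; ring
  have E5 : det3 (Q c) (Q b) (Q a) = -det3 (Q a) (Q b) (Q c) := by unfold det3; ring
  rcases lt_or_gt_of_ne h1 with h1 | h1 <;> rcases lt_or_gt_of_ne h2 with h2 | h2 <;>
    rcases lt_or_gt_of_ne h3 with h3 | h3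
  · exact (hQ a b c h1 h3).ne'
  · have := hQ a c b h2 h3; intro h; rw [E3, h] at this; simp at this
  · exact absurd (h1.trans h3) (not_lt.2 h2.le)
  · have := hQ c a b h2 h1; intro h; rw [E2, h] at this; simp at this
  · have := hQ b a c h1 h2; intro h; rw [E4, h] at this; simp at this
  · exact absurd (h3.trans h1) (not_lt.2 h2.le)
  · have := hQ b c a h3 h2; intro h; rw [E1, h] at this; simp at this
  · have := hQ c b a h3 h1; intro h; rw [E5, h] at this; simp at this

/-- G3: segments with one common end meet only there (any three distinct indices). -/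
theorem segments_common {n : ℕ} (Q : Fin n → ℝ × ℝ)
    (hQ : ∀ i j k : Fin n, i < j → j < k → 0 < det3 (Q i) (Q j) (Q k))
    {a b c : Fin n} (h1 : a ≠ b) (h2 : a ≠ c) (h3 : b ≠ c) :
    segment ℝ (Q a) (Q b) ∩ segment ℝ (Q a) (Q c) = {Q a} := by
  have hne := det3_ne_of_sorted Q hQ h1 h2 h3
  apply Set.Subset.antisymm
  · rintro z ⟨⟨s, t, hs, ht, hst, rfl⟩, ⟨s', t', hs', ht', hst', he⟩⟩
    have e1 : det3 (Q a) (Q c) (s • Q a + t • Q b) = 0 := by
      rw [← he, det3_affine _ _ _ _ _ _ hst', det3_left, det3_right]; ring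
    rw [det3_affine _ _ _ _ _ _ hst, det3_left, det3_swap (Q a) (Q b) (Q c)] at e1
    have ht0 : t = 0 := by
      have : t * det3 (Q a) (Q b) (Q c) = 0 := by linarith
      rcases mul_eq_zero.1 this with h | h
      · exact h
      · exact absurd h hne
    have hs1 : s = 1 := by linarith
    rw [ht0, hs1]
    simp
  · rintro z hz
    rw [Set.mem_singleton_iff] at hz
    subst hz
    exact ⟨left_mem_segment ℝ _ _, left_mem_segment ℝ _ _⟩

end Pool.Agent.Work.MP_cf88b2_co
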