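import Pool.Agent.Work.MP_cf88b2_co.Core

set_option autoImplicit false

namespace Pool.Agent.Work.MP_cf88b2_co

open Finset

variable {n : ℕ} [NeZero n]

/-- reduction of `E`: the diagonal `e` may be exchanged for the missing side `t` -/
structure Red (d : ℕ) (E : Finset (Sym2 (ZMod n))) (e : Sym2 (ZMod n)) (t : ZMod n) : Prop where
  dg : e ∈ Dg E
  miss : t ∉ H E
  mem : Mem d (swap E e (side t))

lemma Ear.red (hn : 3 ≤ n) {d : ℕ} {E : Finset (Sym2 (ZMod n))} {a : ZMod n} {M i m k : ℕ}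
    (h : Ear d E a M i m k) (hM : M ≤ n) (hM2 : i = 0 → i + m + 2 ≤ n) (hM3 : i + m < n) :
    Red d E s(a + (i : ZMod n), a + ((i + m : ℕ) : ZMod n)) (a + ((i + k : ℕ) : ZMod n)) := by
  refine ⟨?_, ?_, h.mem⟩
  · rw [mem_Dg]
    refine ⟨h.chord, ?_⟩
    apply cross_not_side hn a (by have := h.hm; omega) hM3
    by_cases hi : i = 0
    · right; have := hM2 hi; omega
    · left; exact hi
  · rw [mem_H]; exact h.miss

lemma diag_off (hn : 3 ≤ n) {E : Finset (Sym2 (ZMod n))} (hl : ∀ e ∈ E, ¬ e.IsDiag)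
    (a : ZMod n) {e : Sym2 (ZMod n)} (he : e ∈ Dg E) :
    ∃ p q : ℕ, p + 2 ≤ q ∧ q < n ∧ (p = 0 → q + 2 ≤ n) ∧ e = s(a + (p : ZMod n), a + (q : ZMod n)) := by
  rw [mem_Dg] at he
  obtain ⟨he1, he2⟩ := he
  induction e using Sym2.ind with
  | _ x y =>
  obtain ⟨p, hp, rfl⟩ := exists_off a x
  obtain ⟨q, hq, rfl⟩ := exists_off a y
  have hne : p ≠ q := by
    rintro rfl
    exact hl _ he1 (by simp)
  rcases Nat.lt_or_gt_of_ne hne with h | h
  · have h1 := (side_iff_off hn a h hq).not.mp (by push Not; exact he2)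
    refine ⟨p, q, by omega, hq, by omega, rfl⟩
  · have h1 := (side_iff_off hn a h hp).not.mp (by
      push Not
      intro t ht
      exact he2 t (ht.trans Sym2.eq_swap))
    exact ⟨q, p, by omega, hp, by omega, Sym2.eq_swap⟩

lemma chord_ne (hn : 3 ≤ n) (a : ZMod n) {M x y : ℕ} (hM2 : 2 ≤ M) (hM : M + 2 ≤ n) (hx : M ≤ x)
    (hxy : x < y) (hy : y ≤ n) (h : y = n → M < x) :
    s(a + (x : ZMod n), a + (y : ZMod n)) ≠ s(a, a + (M : ZMod n)) := by
  intro heq
  have ha : a = a + ((0 : ℕ) : ZMod n) := by simp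
  rw [Sym2.eq_iff] at heq
  rcases heq with ⟨h1, _⟩ | ⟨h1, h2⟩
  · conv_rhs at h1 => rw [ha]
    rw [add_cast_inj a (by omega) (by omega)] at h1
    omega
  · rw [add_cast_inj a (by omega) (by omega)] at h1
    by_cases hyn : y = n
    · have := h hyn; omega
    · conv_rhs at h2 => rw [ha]
      rw [add_cast_inj a (by omega) (by omega)] at h2
      omega

lemma two_red (hn : 3 ≤ n) {d : ℕ} (hd : 2 ≤ d) {E : Finset (Sym2 (ZMod n))} (hE : Mem d E)
    (hne : (Dg E).Nonempty) :
    ∃ e1 t1 e2 t2, Red d E e1 t1 ∧ Red d E e2 t2 ∧ t1 ≠ t2 ∧ (2 ≤ (Dg E).card → e1 ≠ e2) := by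
  classical
  have hex : ∃ M : ℕ, 2 ≤ M ∧ M + 2 ≤ n ∧ ∃ a : ZMod n, s(a, a + (M : ZMod n)) ∈ E := by
    obtain ⟨e, he⟩ := hne
    obtain ⟨p, q, hpq, hq, h0, rfl⟩ := diag_off hn hE.loopless 0 he
    refine ⟨q - p, by omega, by omega, 0 + (p : ZMod n), ?_⟩
    have : (0 : ZMod n) + (p : ZMod n) + ((q - p : ℕ) : ZMod n) = 0 + (q : ZMod n) := by
      rw [Nat.cast_sub (by omega)]; ring
    rw [this]
    exact (mem_Dg.mp he).1
  obtain ⟨M, ⟨hM2, hMn, a, hch⟩, hmin⟩ : ∃ M : ℕ, (2 ≤ M ∧ M + 2 ≤ n ∧ ∃ a : ZMod n, s(a, a + (M : ZMod n)) ∈ E) ∧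
      ∀ M' : ℕ, (2 ≤ M' ∧ M' + 2 ≤ n ∧ ∃ a : ZMod n, s(a, a + (M' : ZMod n)) ∈ E) → M ≤ M' :=
    ⟨Nat.find hex, Nat.find_spec hex, fun M' h => Nat.find_min' hex h⟩
  -- first ear
  obtain ⟨i, m, k, hear⟩ := ear hn hd hE M a hM2 hMn hch
  have him := hear.him
  have hm := hear.hm
  have hk := hear.hk
  have hmM : M ≤ m := by
    apply hmin
    refine ⟨hear.hm, by omega, a + (i : ZMod n), ?_⟩
    have := hear.chord
    push_cast at this
    rwa [← add_assoc] at this
  have hi : i = 0 := by omega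
  have hmM' : m = M := by omega
  subst hi
  subst hmM'
  have r1 := hear.red hn (by omega) (by omega) (by omega)
  -- the opposite arc
  have hsum : ∀ x : ℕ, x ≤ n → a + (x : ZMod n) + ((n - x : ℕ) : ZMod n) = a := by
    intro x hx
    rw [Nat.cast_sub hx, cast_n (n := n)]; ring
  -- generic ear in an arc (p', L')
  have gen : ∀ p' L' : ℕ, m ≤ p' → 2 ≤ L' → L' + 2 ≤ n → p' + L' ≤ n →
      s(a + (p' : ZMod n), a + ((p' + L' : ℕ) : ZMod n)) ∈ E →
      ∃ x y z : ℕ, p' ≤ x ∧ x + 2 ≤ y ∧ y ≤ p' + L' ∧ x ≤ z ∧ z < y ∧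
        Red d E s(a + (x : ZMod n), a + (y : ZMod n)) (a + (z : ZMod n)) := by
    intro p' L' hp' hL2 hLn hpL hch'
    have hch2 : s(a + (p' : ZMod n), a + (p' : ZMod n) + (L' : ZMod n)) ∈ E := by
      rw [add_assoc, ← Nat.cast_add]; exact hch'
    obtain ⟨i, m', k', he⟩ := ear hn hd hE L' (a + (p' : ZMod n)) hL2 hLn hch2
    have h1 := he.him
    have h2 := he.hm
    have h3 := he.hk
    refine ⟨p' + i, p' + (i + m'), p' + (i + k'), by omega, by omega, by omega, by omega, by omega, ?_⟩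
    have hr := he.red hn (by omega) (by omega) (by omega)
    have e1 : a + (p' : ZMod n) + (i : ZMod n) = a + ((p' + i : ℕ) : ZMod n) := by push_cast; ring
    have e2 : a + (p' : ZMod n) + ((i + m' : ℕ) : ZMod n) = a + ((p' + (i + m') : ℕ) : ZMod n) := by
      push_cast; ring
    have e3 : a + (p' : ZMod n) + ((i + k' : ℕ) : ZMod n) = a + ((p' + (i + k') : ℕ) : ZMod n) := by
      push_cast; ring
    rw [e1, e2, e3] at hr
    exact hr
  have tne : ∀ z : ℕ, m ≤ z → z < n → a + ((0 + k : ℕ) : ZMod n) ≠ a + (z : ZMod n) := by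
    intro z hz hzn
    rw [Ne, add_cast_inj a (by omega) hzn]
    omega
  by_cases hcard : 2 ≤ (Dg E).card
  · -- another diagonal
    have hex2 : ∃ e2 ∈ Dg E, e2 ≠ s(a, a + (m : ZMod n)) := by
      by_contra hcon
      push Not at hcon
      have : (Dg E) ⊆ {s(a, a + (m : ZMod n))} := by
        intro e he
        rw [mem_singleton]; exact hcon e he
      have := Finset.card_le_card this
      rw [card_singleton] at this
      omega
    obtain ⟨e2, he2, hne2⟩ := hex2
    obtain ⟨p, q, hpq, hq, h0, rfl⟩ := diag_off hn hE.loopless a he2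
    have he2E := (mem_Dg.mp he2).1
    have hqm : m < q := by
      by_contra hcon
      push Not at hcon
      have h1 : m ≤ q - p := by
        apply hmin
        refine ⟨by omega, by omega, a + (p : ZMod n), ?_⟩
        have : a + (p : ZMod n) + ((q - p : ℕ) : ZMod n) = a + (q : ZMod n) := by
          rw [Nat.cast_sub (by omega)]; ring
        rw [this]; exact he2E
      have hp0 : p = 0 := by omega
      have hqm : q = m := by omega
      subst hp0; subst hqm
      exact hne2 (by simp)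
    have hp : p = 0 ∨ m ≤ p := by
      by_contra hcon
      push Not at hcon
      refine hE.nc a 0 p m q (by omega) (by omega) hqm hq ?_ he2E
      simpa using hch
    rcases hp with hp | hp
    · subst hp
      have hch3 : s(a + (q : ZMod n), a + ((q + (n - q) : ℕ) : ZMod n)) ∈ E := by
        rw [show q + (n - q) = n by omega, cast_n (n := n), Sym2.eq_swap]
        simpa using he2E
      obtain ⟨x, y, z, hx, hxy, hy, hz1, hz2, hred⟩ := gen q (n - q) (by omega) (by have := h0 rfl; omega)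
        (by omega) (by omega) hch3
      refine ⟨_, _, _, _, r1, hred, tne z (by omega) (by omega), fun _ => ?_⟩
      have := chord_ne hn a (M := m) (x := x) (y := y) hM2 hMn (by omega) (by omega) (by omega)
        (by intro; omega)
      simpa using this.symm
    · have hch3 : s(a + (p : ZMod n), a + ((p + (q - p) : ℕ) : ZMod n)) ∈ E := by
        rw [show p + (q - p) = q by omega]; exact he2E
      obtain ⟨x, y, z, hx, hxy, hy, hz1, hz2, hred⟩ := gen p (q - p) (by omega) (by omega)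
        (by omega) (by omega) hch3
      refine ⟨_, _, _, _, r1, hred, tne z (by omega) (by omega), fun _ => ?_⟩
      have := chord_ne hn a (M := m) (x := x) (y := y) hM2 hMn (by omega) (by omega) (by omega)
        (by intro; omega)
      simpa using this.symm
  · have hch3 : s(a + (m : ZMod n), a + ((m + (n - m) : ℕ) : ZMod n)) ∈ E := by
      rw [show m + (n - m) = n by omega, cast_n (n := n), Sym2.eq_swap]
      simpa using hch
    obtain ⟨x, y, z, hx, hxy, hy, hz1, hz2, hred⟩ := gen m (n - m) (by omega) (by omega)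
      (by omega) (by omega) hch3
    exact ⟨_, _, _, _, r1, hred, tne z (by omega) (by omega), fun h => absurd h hcard⟩

/-! ### the graph -/

/-- trees -/
abbrev Tr (n d : ℕ) [NeZero n] := {E : Finset (Sym2 (ZMod n)) // Mem d E}

/-- exchange graph -/
def cg (n d : ℕ) [NeZero n] : SimpleGraph (Tr n d) where
  Adj E F := E ≠ F ∧ (E.1 ∩ F.1).card + 2 = n
  symm := ⟨fun E F h => ⟨h.1.symm, by rw [Finset.inter_comm]; exact h.2⟩⟩
  loopless := ⟨fun E h => h.1 rfl⟩

variable {d : ℕ}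

lemma adj_iff {E F : Tr n d} : (cg n d).Adj E F ↔ (E.1 ∩ F.1).card + 2 = n := by
  constructor
  · exact fun h => h.2
  · intro h
    refine ⟨?_, h⟩
    rintro rfl
    rw [Finset.inter_self] at h
    have := E.2.card
    omega

lemma adj_swap {E : Tr n d} {e f : Sym2 (ZMod n)} (he : e ∈ E.1) (hf : f ∉ E.1)
    (hm : Mem d (swap E.1 e f)) : (cg n d).Adj E ⟨swap E.1 e f, hm⟩ := by
  rw [adj_iff]
  have h1 : E.1 ∩ swap E.1 e f = E.1.erase e := by
    ext x
    simp only [swap, mem_inter, mem_insert, mem_erase]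
    constructor
    · rintro ⟨h1, h2 | h2⟩
      · subst h2; exact absurd h1 hf
      · exact h2
    · rintro ⟨h1, h2⟩
      exact ⟨h2, Or.inr ⟨h1, h2⟩⟩
  show (E.1 ∩ swap E.1 e f).card + 2 = n
  rw [h1, Finset.card_erase_of_mem he]
  have := E.2.card
  have : 0 < E.1.card := Finset.card_pos.mpr ⟨_, he⟩
  omega

/-- normal form of adjacency -/
lemma exists_swap {E F : Tr n d} (h : (cg n d).Adj E F) :
    ∃ e f, e ∈ E.1 ∧ f ∉ E.1 ∧ F.1 = swap E.1 e f := by
  rw [adj_iff] at h
  have hE := E.2.card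
  have hF := F.2.card
  have h1 : (E.1 \ F.1).card = 1 := by
    have := Finset.card_sdiff_add_card_inter E.1 F.1
    omega
  have h2 : (F.1 \ E.1).card = 1 := by
    have := Finset.card_sdiff_add_card_inter F.1 E.1
    rw [Finset.inter_comm] at this
    omega
  obtain ⟨e, he⟩ := Finset.card_eq_one.mp h1
  obtain ⟨f, hf⟩ := Finset.card_eq_one.mp h2
  have he' : e ∈ E.1 \ F.1 := by rw [he]; exact mem_singleton_self _
  have hf' : f ∈ F.1 \ E.1 := by rw [hf]; exact mem_singleton_self _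
  rw [mem_sdiff] at he' hf'
  refine ⟨e, f, he'.1, hf'.2, ?_⟩
  ext x
  simp only [swap, mem_insert, mem_erase]
  constructor
  · intro hx
    by_cases hxE : x ∈ E.1
    · right
      refine ⟨?_, hxE⟩
      rintro rfl
      exact he'.2 hx
    · left
      have : x ∈ F.1 \ E.1 := mem_sdiff.mpr ⟨hx, hxE⟩
      rw [hf] at this
      exact mem_singleton.mp this
  · rintro (rfl | ⟨h3, h4⟩)
    · exact hf'.1
    · by_contra hx
      have : x ∈ E.1 \ F.1 := mem_sdiff.mpr ⟨h4, hx⟩
      rw [he] at this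
      exact h3 (mem_singleton.mp this)

lemma Dg_swap_card_le {E : Finset (Sym2 (ZMod n))} {e f : Sym2 (ZMod n)} :
    (Dg (swap E e f)).card ≤ (Dg E).card + 1 := by
  have : Dg (swap E e f) ⊆ insert f (Dg E) := by
    intro x hx
    rw [mem_Dg] at hx
    rw [mem_insert, mem_Dg]
    rcases hx with ⟨h1, h2⟩
    rw [swap, mem_insert, mem_erase] at h1
    rcases h1 with h1 | h1
    · left; exact h1
    · right; exact ⟨h1.2, h2⟩
  exact (Finset.card_le_card this).trans (Finset.card_insert_le _ _)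

lemma adj_Dg {E F : Tr n d} (h : (cg n d).Adj E F) : (Dg F.1).card ≤ (Dg E.1).card + 1 := by
  obtain ⟨e, f, _, _, h3⟩ := exists_swap h
  rw [h3]
  exact Dg_swap_card_le

lemma H_swap_subset {E : Finset (Sym2 (ZMod n))} {e f : Sym2 (ZMod n)} (hf : f ∉ sides) :
    H (swap E e f) ⊆ H E := by
  intro i hi
  rw [mem_H] at hi ⊢
  rw [swap, mem_insert, mem_erase] at hi
  rcases hi with hi | hi
  · exact absurd (mem_sides.mpr ⟨i, hi⟩) hf
  · exact hi.2

lemma adj_H (hn : 3 ≤ n) {E F : Tr n d} (h : (cg n d).Adj E F) (hc : (Dg F.1).card = (Dg E.1).card + 1) :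
    H F.1 ⊆ H E.1 := by
  obtain ⟨e, f, h1, h2, h3⟩ := exists_swap h
  rw [h3]
  apply H_swap_subset
  intro hf
  -- then the number of diagonals does not grow
  have : Dg (swap E.1 e f) ⊆ Dg E.1 := by
    intro x hx
    rw [mem_Dg] at hx ⊢
    rcases hx with ⟨h4, h5⟩
    rw [swap, mem_insert, mem_erase] at h4
    rcases h4 with h4 | h4
    · subst h4
      obtain ⟨i, hi⟩ := mem_sides.mp hf
      exact absurd hi (h5 i)
    · exact ⟨h4.2, h5⟩
  have := Finset.card_le_card this
  rw [← h3] at this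
  omega

lemma Red.adj {E : Tr n d} {e : Sym2 (ZMod n)} {t : ZMod n} (h : Red d E.1 e t) :
    (cg n d).Adj E ⟨swap E.1 e (side t), h.mem⟩ :=
  adj_swap (mem_Dg.mp h.dg).1 (by have := h.miss; rwa [mem_H] at this) h.mem

lemma Red.Dg_eq {E : Finset (Sym2 (ZMod n))} {e : Sym2 (ZMod n)} {t : ZMod n} (_h : Red d E e t) :
    Dg (swap E e (side t)) = (Dg E).erase e := by
  ext x
  rw [mem_erase, mem_Dg, mem_Dg, swap, mem_insert, mem_erase]
  constructor
  · rintro ⟨h1 | h1, h2⟩
    · exact absurd h1.symm (h2 t)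
    · exact ⟨h1.1, h1.2, h2⟩
  · rintro ⟨h1, h2, h3⟩
    exact ⟨Or.inr ⟨h1, h2⟩, h3⟩

lemma Red.card_Dg {E : Finset (Sym2 (ZMod n))} {e : Sym2 (ZMod n)} {t : ZMod n} (h : Red d E e t) :
    (Dg (swap E e (side t))).card + 1 = (Dg E).card := by
  rw [h.Dg_eq, Finset.card_erase_of_mem h.dg]
  have : 0 < (Dg E).card := Finset.card_pos.mpr ⟨_, h.dg⟩
  omega

lemma Red.H_eq (hn : 3 ≤ n) {E : Finset (Sym2 (ZMod n))} {e : Sym2 (ZMod n)} {t : ZMod n} (h : Red d E e t) :
    H (swap E e (side t)) = insert t (H E) := by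
  ext i
  rw [mem_insert, mem_H, mem_H, swap, mem_insert, mem_erase]
  constructor
  · rintro (h1 | h1)
    · left; exact side_inj hn h1
    · right; exact h1.2
  · rintro (h1 | h1)
    · left; rw [h1]
    · right
      exact ⟨(mem_Dg.mp h.dg).2 i, h1⟩

lemma card_H (hn : 3 ≤ n) (E : Tr n d) : (H E.1).card + (Dg E.1).card + 1 = n := by
  have := card_split hn E.1
  have := E.2.card
  omega

end Pool.Agent.Work.MP_cf88b2_co
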