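import Pool.Agent.Work.MP_cf88b2_co.Levels

set_option autoImplicit false

namespace Pool.Agent.Work.MP_cf88b2_co

open Finset

variable {n : ℕ} [NeZero n] {d : ℕ}

/-- the boundary path missing the side `j` -/
def Pt (j : ZMod n) : Finset (Sym2 (ZMod n)) := sides.erase (side j)

lemma dgr_le (E : Finset (Sym2 (ZMod n))) (v : ZMod n) : dgr E v ≤ 2 + (Dg E).card := by
  unfold dgr
  have h1 : E.filter (fun e => v ∈ e) ⊆ ({side v, side (v - 1)} : Finset (Sym2 (ZMod n))) ∪ Dg E := by
    intro e he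
    rw [mem_filter] at he
    rw [mem_union]
    by_cases hs : e ∈ sides
    · left
      obtain ⟨i, rfl⟩ := mem_sides.mp hs
      have := he.2
      unfold side at this
      rw [Sym2.mem_iff] at this
      rcases this with h | h
      · subst h; simp
      · rw [h]; simp
    · right
      rw [Dg, mem_filter]
      exact ⟨he.1, hs⟩
  calc (E.filter (fun e => v ∈ e)).card ≤ (({side v, side (v - 1)} : Finset (Sym2 (ZMod n))) ∪ Dg E).card :=
        Finset.card_le_card h1
    _ ≤ ({side v, side (v - 1)} : Finset (Sym2 (ZMod n))).card + (Dg E).card := Finset.card_union_le _ _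
    _ ≤ 2 + (Dg E).card := by
        have := Finset.card_le_two (a := side v) (b := side (v - 1))
        omega

lemma nc_of_card_Dg (hn : 3 ≤ n) {E : Finset (Sym2 (ZMod n))} (h : (Dg E).card ≤ 1) : NC E := by
  intro a i j k l hij hjk hkl hl h1 h2
  have n1 := cross_not_side hn a (i := i) (j := k) (by omega) (by omega) (by omega)
  have n2 := cross_not_side hn a (i := j) (j := l) (by omega) (by omega) (by omega)
  have e1 := mem_Dg.mpr ⟨h1, n1⟩
  have e2 := mem_Dg.mpr ⟨h2, n2⟩
  have := Finset.card_le_one.mp h _ e1 _ e2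
  rw [Sym2.eq_iff] at this
  rcases this with ⟨h3, _⟩ | ⟨h3, _⟩
  · rw [add_cast_inj a (by omega) (by omega)] at h3; omega
  · rw [add_cast_inj a (by omega) (by omega)] at h3; omega

lemma mem_of_card_Dg (hn : 3 ≤ n) (hd : 3 ≤ d) {E : Finset (Sym2 (ZMod n))}
    (hl : ∀ e ∈ E, ¬ e.IsDiag) (hc : (gr E).Connected) (hcard : E.card + 1 = n)
    (h : (Dg E).card ≤ 1) : Mem d E :=
  ⟨hl, hc, hcard, nc_of_card_Dg hn h, fun v => (dgr_le E v).trans (by omega)⟩

lemma card_sides (hn : 3 ≤ n) : (sides : Finset (Sym2 (ZMod n))).card = n := by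
  unfold sides
  rw [Finset.card_image_of_injective _ (fun i j h => side_inj hn h)]
  rw [Finset.card_univ, ZMod.card]

lemma path_reach {E : Finset (Sym2 (ZMod n))} (a : ZMod n) {x y : ℕ} (hxy : x ≤ y) (hy : y < n)
    (h : ∀ j, x ≤ j → j < y → side (a + (j : ZMod n)) ∈ E) :
    (gr E).Reachable (a + (x : ZMod n)) (a + (y : ZMod n)) := by
  induction y, hxy using Nat.le_induction with
  | base => exact SimpleGraph.Reachable.refl _
  | succ y hxy ih =>
    have h1 := ih (by omega) (fun j h1 h2 => h j h1 (by omega))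
    have h2 : (gr E).Adj (a + (y : ZMod n)) (a + ((y + 1 : ℕ) : ZMod n)) := by
      rw [gr_adj, ← side_off]
      refine ⟨h y hxy (by omega), ?_⟩
      rw [Ne, add_cast_inj a (by omega) hy]
      omega
    exact h1.trans h2.reachable

lemma sub_one_off (a : ZMod n) : a + ((n - 1 : ℕ) : ZMod n) + 1 = a := by
  have : 1 ≤ n := NeZero.one_le
  rw [Nat.cast_sub this, cast_n (n := n)]
  simp

lemma side_mem_Pt (hn : 3 ≤ n) {i j : ZMod n} : side i ∈ Pt j ↔ i ≠ j := by
  unfold Pt
  rw [mem_erase]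
  constructor
  · rintro ⟨h, _⟩ rfl; exact h rfl
  · intro h
    exact ⟨fun h' => h (side_inj hn h'), mem_sides.mpr ⟨i, rfl⟩⟩

lemma Dg_Pt (j : ZMod n) : Dg (Pt j) = ∅ := by
  ext e
  rw [mem_Dg]
  simp only [notMem_empty, iff_false, not_and]
  intro h h2
  obtain ⟨i, hi⟩ := mem_sides.mp (Finset.mem_of_mem_erase h)
  exact h2 i hi

lemma Pt_mem (hn : 3 ≤ n) (hd : 3 ≤ d) (j : ZMod n) : Mem d (Pt j) := by
  apply mem_of_card_Dg hn hd
  · intro e he
    obtain ⟨i, rfl⟩ := mem_sides.mp (Finset.mem_of_mem_erase he)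
    exact side_not_diag hn i
  · haveI : Nonempty (ZMod n) := ⟨0⟩
    have h0 : ∀ v, (gr (Pt j)).Reachable (j + 1) v := by
      intro v
      obtain ⟨k, hk, rfl⟩ := exists_off (j + 1) v
      have := path_reach (E := Pt j) (j + 1) (x := 0) (y := k) (by omega) hk ?_
      · simpa using this
      · intro t _ ht
        rw [side_mem_Pt hn]
        intro h
        have h1 : j + 1 + (t : ZMod n) = j + 1 + ((n - 1 : ℕ) : ZMod n) := by
          rw [h]
          have := sub_one_off (j + 1)
          have h2 : j + 1 + ((n - 1 : ℕ) : ZMod n) + 1 - 1 = j + 1 - 1 := by rw [this]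
          simpa using h2.symm
        rw [add_cast_inj _ (by omega) (by omega)] at h1
        omega
    exact SimpleGraph.Connected.mk (fun x y => (h0 x).symm.trans (h0 y))
  · unfold Pt
    rw [Finset.card_erase_of_mem (mem_sides.mpr ⟨j, rfl⟩), card_sides hn]
    omega
  · rw [Dg_Pt]; simp

/-- boundary path as a vertex -/
def PP (hn : 3 ≤ n) (hd : 3 ≤ d) (j : ZMod n) : Tr n d := ⟨Pt j, Pt_mem hn hd j⟩

lemma eq_Pt (hn : 3 ≤ n) {E : Tr n d} (h : Dg E.1 = ∅) : ∃ j, E.1 = Pt j := by
  have hsub : E.1 ⊆ sides := by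
    intro e he
    by_contra hs
    have : e ∈ Dg E.1 := by rw [Dg, mem_filter]; exact ⟨he, hs⟩
    rw [h] at this
    simp at this
  have hc := E.2.card
  have h1 : (sides \ E.1).card = 1 := by
    rw [Finset.card_sdiff_of_subset hsub, card_sides hn]
    omega
  obtain ⟨e, he⟩ := Finset.card_eq_one.mp h1
  have he' : e ∈ sides \ E.1 := by rw [he]; exact mem_singleton_self _
  rw [mem_sdiff] at he'
  obtain ⟨j, rfl⟩ := mem_sides.mp he'.1
  refine ⟨j, ?_⟩
  ext x
  unfold Pt
  rw [mem_erase]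
  constructor
  · intro hx
    refine ⟨?_, hsub hx⟩
    rintro rfl
    exact he'.2 hx
  · rintro ⟨h2, h3⟩
    by_contra hx
    have : x ∈ sides \ E.1 := mem_sdiff.mpr ⟨h3, hx⟩
    rw [he] at this
    exact h2 (mem_singleton.mp this)

lemma H_Pt (hn : 3 ≤ n) (j : ZMod n) : H (Pt j) = univ.erase j := by
  ext i
  rw [mem_H, side_mem_Pt hn, mem_erase]
  simp

lemma last_eq (a : ZMod n) {k : ℕ} (hk : k < n) (h : a + (k : ZMod n) = a + ((n - 1 : ℕ) : ZMod n)) :
    k = n - 1 := by
  rwa [add_cast_inj a hk (by omega)] at h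

/-- path on `a, a+1, …, a+n-1` with the edge `a+k` replaced by the edge from `a+x` to `a+y` -/
def Tri (a : ZMod n) (x k y : ℕ) : Finset (Sym2 (ZMod n)) :=
  swap (Pt (a + ((n - 1 : ℕ) : ZMod n))) (side (a + (k : ZMod n))) s(a + (x : ZMod n), a + (y : ZMod n))

lemma Tri_side (hn : 3 ≤ n) (a : ZMod n) {x k y : ℕ} (hxk : x ≤ k) (hky : k < y) (hy : y < n) :
    side (a + (k : ZMod n)) ∈ Pt (a + ((n - 1 : ℕ) : ZMod n)) := by
  rw [side_mem_Pt hn]
  intro h
  have := last_eq a (by omega) h
  omega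

lemma Tri_new (hn : 3 ≤ n) (a : ZMod n) {x y : ℕ} (hxy : x + 2 ≤ y) (hy : y < n) :
    s(a + (x : ZMod n), a + (y : ZMod n)) ∉ Pt (a + ((n - 1 : ℕ) : ZMod n)) := by
  intro h
  obtain ⟨i, hi⟩ := mem_sides.mp (Finset.mem_of_mem_erase h)
  have h1 := (side_iff_off hn a (by omega : x < y) hy).mp ⟨i, hi⟩
  rcases h1 with h1 | ⟨h1, h2⟩
  · omega
  · subst h1
    subst h2
    rw [← hi] at h
    rw [side_mem_Pt hn] at h
    apply h
    apply side_inj hn
    rw [hi, side_off, Nat.sub_add_cancel (by omega), cast_n (n := n), Sym2.eq_swap]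
    simp

lemma Tri_Dg (a : ZMod n) (x k y : ℕ) : (Dg (Tri a x k y)).card ≤ 1 := by
  have := Dg_swap_card_le (E := Pt (a + ((n - 1 : ℕ) : ZMod n))) (e := side (a + (k : ZMod n)))
    (f := s(a + (x : ZMod n), a + (y : ZMod n)))
  rw [Dg_Pt] at this
  simpa [Tri] using this

lemma Tri_mem (hn : 3 ≤ n) (hd : 3 ≤ d) (a : ZMod n) {x k y : ℕ} (hxk : x ≤ k) (hky : k < y)
    (hy : y < n) (hxy : x + 2 ≤ y) : Mem d (Tri a x k y) := by
  have hP := Pt_mem (d := d) hn hd (a + ((n - 1 : ℕ) : ZMod n))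
  have hs := Tri_side hn a hxk hky hy
  have hf := Tri_new hn a hxy hy
  have hside : ∀ j, j < n - 1 → j ≠ k → side (a + (j : ZMod n)) ∈ Tri a x k y := by
    intro j hj hjk
    unfold Tri swap
    rw [mem_insert, mem_erase]
    right
    refine ⟨?_, ?_⟩
    · intro h
      have := side_inj hn h
      rw [add_cast_inj a (by omega) (by omega)] at this
      exact hjk this
    · rw [side_mem_Pt hn]
      intro h
      have := last_eq a (by omega) h
      omega
  apply mem_of_card_Dg hn hd
  · intro e he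
    unfold Tri swap at he
    rw [mem_insert] at he
    rcases he with rfl | he
    · rw [Sym2.mk_isDiag_iff, add_cast_inj a (by omega) (by omega)]
      omega
    · exact hP.loopless e (Finset.mem_of_mem_erase he)
  · unfold Tri
    have : side (a + (k : ZMod n)) = s(a + (k : ZMod n), a + ((k + 1 : ℕ) : ZMod n)) := side_off a k
    rw [this]
    apply swap_conn hP.conn (Finset.subset_insert _ _)
    rw [← this]
    change (gr (Tri a x k y)).Reachable _ _
    have h1 := path_reach (E := Tri a x k y) a (x := x) (y := k) hxk (by omega)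
      (fun j _ h2 => hside j (by omega) (by omega))
    have h2 := path_reach (E := Tri a x k y) a (x := k + 1) (y := y) hky hy
      (fun j h1 h2 => hside j (by omega) (by omega))
    have h3 : (gr (Tri a x k y)).Adj (a + (x : ZMod n)) (a + (y : ZMod n)) := by
      rw [gr_adj]
      refine ⟨Finset.mem_insert_self _ _, ?_⟩
      rw [Ne, add_cast_inj a (by omega) hy]
      omega
    exact (h1.symm.trans h3.reachable).trans h2.symm
  · unfold Tri
    rw [card_swap hs hf]
    exact hP.card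
  · exact Tri_Dg a x k y

lemma swap_inj {E : Finset (Sym2 (ZMod n))} {e e' f f' : Sym2 (ZMod n)} (he : e ∈ E) (he' : e' ∈ E)
    (hf : f ∉ E) (hf' : f' ∉ E) (h : swap E e f = swap E e' f') : e = e' ∧ f = f' := by
  constructor
  · by_contra hne
    have : e ∈ swap E e' f' := by
      unfold swap
      rw [mem_insert, mem_erase]; right; exact ⟨hne, he⟩
    rw [← h] at this
    unfold swap at this
    rw [mem_insert, mem_erase] at this
    rcases this with h1 | h1
    · subst h1; exact hf he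
    · exact h1.1 rfl
  · have : f ∈ swap E e' f' := by rw [← h]; exact Finset.mem_insert_self _ _
    unfold swap at this
    rw [mem_insert, mem_erase] at this
    rcases this with h1 | h1
    · exact h1
    · exact absurd h1.2 hf

/-- degree in the exchange graph -/
noncomputable def dN (E : Tr n d) : ℕ := Set.ncard {F | (cg n d).Adj E F}

/-- the degree of the boundary paths -/
def Dn (n : ℕ) : ℕ := ∑ y ∈ range n, ∑ x ∈ range (y - 1), (y - x)

lemma dN_PP (hn : 3 ≤ n) (hd : 3 ≤ d) (j : ZMod n) : Dn n ≤ dN (PP (d := d) hn hd j) := by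
  classical
  -- base point
  set a : ZMod n := j + 1 with ha
  have hj : a + ((n - 1 : ℕ) : ZMod n) = j := by
    have h1 := sub_one_off a
    have h2 : a + ((n - 1 : ℕ) : ZMod n) + 1 - 1 = a - 1 := by rw [h1]
    simpa [ha] using h2
  let S : Finset (Σ _ : ℕ, Σ _ : ℕ, ℕ) :=
    (range n).sigma (fun y => (range (y - 1)).sigma (fun x => Ico x y))
  have hS : S.card = Dn n := by
    simp only [S, Finset.card_sigma, Dn, Nat.card_Ico]
  let g : (Σ _ : ℕ, Σ _ : ℕ, ℕ) → Finset (Sym2 (ZMod n)) := fun p => Tri a p.2.1 p.2.2 p.1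
  have hgS : ∀ p ∈ S, p.2.1 ≤ p.2.2 ∧ p.2.2 < p.1 ∧ p.1 < n ∧ p.2.1 + 2 ≤ p.1 := by
    rintro ⟨y, x, k⟩ hp
    simp only [S, mem_sigma, mem_range, mem_Ico] at hp
    simp only
    omega
  have hmem : ∀ p ∈ S, Mem d (g p) := by
    intro p hp
    obtain ⟨h1, h2, h3, h4⟩ := hgS p hp
    exact Tri_mem hn hd a h1 h2 h3 h4
  have hinj : ∀ p ∈ S, ∀ q ∈ S, g p = g q → p = q := by
    rintro ⟨y, x, k⟩ hp ⟨y', x', k'⟩ hq h
    obtain ⟨h1, h2, h3, h4⟩ := hgS _ hp
    obtain ⟨h1', h2', h3', h4'⟩ := hgS _ hq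
    simp only at h1 h2 h3 h4 h1' h2' h3' h4'
    obtain ⟨e1, e2⟩ := swap_inj (Tri_side hn a h1 h2 h3) (Tri_side hn a h1' h2' h3')
      (Tri_new hn a h4 h3) (Tri_new hn a h4' h3') h
    have hk := side_inj hn e1
    rw [add_cast_inj a (by omega) (by omega)] at hk
    rw [Sym2.eq_iff] at e2
    rcases e2 with ⟨e3, e4⟩ | ⟨e3, e4⟩
    · rw [add_cast_inj a (by omega) (by omega)] at e3 e4
      subst hk; subst e3; subst e4; rfl
    · rw [add_cast_inj a (by omega) (by omega)] at e3 e4
      omega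
  have hsub : (S.attach.image (fun p => (⟨g p.1, hmem p.1 p.2⟩ : Tr n d)) : Set (Tr n d)) ⊆
      {F | (cg n d).Adj (PP hn hd j) F} := by
    intro F hF
    simp only [coe_image, Set.mem_image, mem_coe, mem_attach, true_and, Subtype.exists] at hF
    obtain ⟨p, hp, rfl⟩ := hF
    obtain ⟨h1, h2, h3, h4⟩ := hgS p hp
    have h5 := Tri_side hn a h1 h2 h3
    have h6 := Tri_new hn a h4 h3
    have h7 := hmem p hp
    simp only [Set.mem_setOf_eq]
    have : (PP (d := d) hn hd j).1 = Pt (a + ((n - 1 : ℕ) : ZMod n)) := by rw [hj]; rfl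
    exact adj_swap (E := PP (d := d) hn hd j) (by rw [this]; exact h5) (by rw [this]; exact h6)
      (by rw [this]; exact h7) |> fun h => by
        have h8 : (⟨g p, h7⟩ : Tr n d) = ⟨swap (PP (d := d) hn hd j).1 (side (a + (p.2.2 : ZMod n)))
            s(a + (p.2.1 : ZMod n), a + (p.1 : ZMod n)), by rw [this]; exact h7⟩ := by
          apply Subtype.ext
          simp only [this]
          rfl
        rw [h8]
        exact h
  unfold dN
  calc Dn n = S.card := hS.symm
    _ = S.attach.card := (Finset.card_attach).symm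
    _ = (S.attach.image (fun p => (⟨g p.1, hmem p.1 p.2⟩ : Tr n d))).card := by
        rw [Finset.card_image_of_injective]
        intro p q h
        have h1 : g p.1 = g q.1 := congrArg Subtype.val h
        exact Subtype.ext (hinj _ p.2 _ q.2 h1)
    _ = Set.ncard (S.attach.image (fun p => (⟨g p.1, hmem p.1 p.2⟩ : Tr n d)) : Set (Tr n d)) :=
        (Set.ncard_coe_finset _).symm
    _ ≤ _ := Set.ncard_le_ncard hsub (Set.toFinite _)

end Pool.Agent.Work.MP_cf88b2_co
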