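import Pool.Agent.Work.MP_cf88b2_co.Upper

set_option autoImplicit false

namespace Pool.Agent.Work.MP_cf88b2_co

open Finset

variable {n : ℕ} [NeZero n] {d : ℕ}

/-- the bound on the Wiener index for all trees of the family -/
def WB (n d : ℕ) [NeZero n] : Prop := ∀ E : Tr n d,
  ∑ x : ZMod n, ∑ y : ZMod n, (gr E.1).dist x y ≤ ∑ k ∈ range n, k * (k + 1)

lemma dN_map (φ : cg n d ≃g cg n d) (E : Tr n d) : dN (φ E) = dN E := by
  unfold dN
  have : {F | (cg n d).Adj (φ E) F} = φ '' {F | (cg n d).Adj E F} := by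
    ext F
    constructor
    · intro hF
      refine ⟨φ.symm F, ?_, by simp⟩
      rw [Set.mem_setOf_eq] at hF ⊢
      rw [← φ.map_adj_iff]
      simpa using hF
    · rintro ⟨G, hG, rfl⟩
      exact φ.map_adj_iff.mpr hG
  rw [this, Set.ncard_image_of_injective _ φ.injective]

lemma Dg_nonempty_of {E : Tr n d} {k : ℕ} (h : (Dg E.1).card = k + 1) : (Dg E.1).Nonempty :=
  Finset.card_pos.mp (by omega)

lemma Dg_card_map (hn : 3 ≤ n) (hd : 3 ≤ d) (hW : WB n d) :
    ∀ (k : ℕ) (φ : cg n d ≃g cg n d) (E : Tr n d), (Dg E.1).card = k → (Dg (φ E).1).card = k := by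
  intro k
  induction k using Nat.strong_induction_on with
  | _ k IH =>
  intro φ E hk
  rcases k with _ | k
  · -- boundary paths
    rw [Finset.card_eq_zero] at hk ⊢
    obtain ⟨j, hj⟩ := eq_Pt hn hk
    by_contra hne
    have h1 := dN_lt hn (φ E) (Finset.nonempty_iff_ne_empty.mpr hne) (hW _)
    rw [dN_map] at h1
    have h2 : E = PP hn hd j := Subtype.ext hj
    rw [h2] at h1
    have h3 := dN_PP (d := d) hn hd j
    omega
  · obtain ⟨e1, t1, e2, t2, r1, r2, _, _⟩ := two_red hn (by omega) E.2 (Dg_nonempty_of hk)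
    have h1 := r1.card_Dg
    have h2 := IH k (by omega) φ ⟨_, r1.mem⟩ (by show (Dg (swap _ _ _)).card = k; omega)
    have h3 := adj_Dg (φ.map_adj_iff.mpr r1.adj.symm)
    by_contra hcon
    have h4 : (Dg (φ E).1).card < k + 1 := by omega
    have h5 := IH _ h4 φ.symm (φ E) rfl
    rw [RelIso.symm_apply_apply] at h5
    omega

lemma exists_sg (hn : 3 ≤ n) (hd : 3 ≤ d) (hW : WB n d) (φ : cg n d ≃g cg n d) (j : ZMod n) :
    ∃ j', φ (PP hn hd j) = PP hn hd j' := by
  have h1 : (Dg (PP (d := d) hn hd j).1).card = 0 := by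
    rw [Finset.card_eq_zero]; exact Dg_Pt j
  have h2 := Dg_card_map hn hd hW 0 φ _ h1
  rw [Finset.card_eq_zero] at h2
  obtain ⟨j', hj'⟩ := eq_Pt hn h2
  exact ⟨j', Subtype.ext hj'⟩

/-- the induced permutation of the sides -/
noncomputable def sg (hn : 3 ≤ n) (hd : 3 ≤ d) (hW : WB n d) (φ : cg n d ≃g cg n d) (j : ZMod n) : ZMod n :=
  (exists_sg hn hd hW φ j).choose

lemma sg_spec (hn : 3 ≤ n) (hd : 3 ≤ d) (hW : WB n d) (φ : cg n d ≃g cg n d) (j : ZMod n) :
    φ (PP hn hd j) = PP hn hd (sg hn hd hW φ j) := (exists_sg hn hd hW φ j).choose_spec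

lemma PP_inj (hn : 3 ≤ n) (hd : 3 ≤ d) {i j : ZMod n} (h : PP (d := d) hn hd i = PP hn hd j) : i = j := by
  have h1 : Pt i = Pt j := congrArg Subtype.val h
  by_contra hne
  have h2 : side j ∈ Pt i := (side_mem_Pt hn).mpr (Ne.symm hne)
  rw [h1, side_mem_Pt hn] at h2
  exact h2 rfl

lemma sg_symm (hn : 3 ≤ n) (hd : 3 ≤ d) (hW : WB n d) (φ : cg n d ≃g cg n d) (j : ZMod n) :
    sg hn hd hW φ.symm (sg hn hd hW φ j) = j := by
  apply PP_inj (d := d) hn hd
  rw [← sg_spec, ← sg_spec, RelIso.symm_apply_apply]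

lemma sg_inj (hn : 3 ≤ n) (hd : 3 ≤ d) (hW : WB n d) (φ : cg n d ≃g cg n d) :
    Function.Injective (sg hn hd hW φ) := by
  intro i j h
  rw [← sg_symm hn hd hW φ i, h, sg_symm]

lemma H_map (hn : 3 ≤ n) (hd : 3 ≤ d) (hW : WB n d) (φ : cg n d ≃g cg n d) :
    ∀ (k : ℕ) (E : Tr n d), (Dg E.1).card = k → H (φ E).1 = (H E.1).image (sg hn hd hW φ) := by
  have hinj := sg_inj hn hd hW φ
  intro k
  induction k with
  | zero =>
    intro E hk
    rw [Finset.card_eq_zero] at hk
    obtain ⟨j, hj⟩ := eq_Pt hn hk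
    have h2 : E = PP hn hd j := Subtype.ext hj
    subst h2
    rw [sg_spec hn hd hW]
    change H (Pt _) = (H (Pt _)).image _
    rw [H_Pt hn, H_Pt hn]
    have hbij : Function.Bijective (sg hn hd hW φ) := Finite.injective_iff_bijective.mp hinj
    rw [Finset.image_erase hinj, Finset.image_univ_of_surjective hbij.2]
  | succ k ih =>
    intro E hk
    obtain ⟨e1, t1, e2, t2, r1, r2, ht, _⟩ := two_red hn (by omega) E.2 (Dg_nonempty_of hk)
    have c1 := r1.card_Dg
    have c2 := r2.card_Dg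
    have key : ∀ e t, ∀ (r : Red d E.1 e t), H (φ E).1 ⊆ (insert t (H E.1)).image (sg hn hd hW φ) := by
      intro e t r
      have c := r.card_Dg
      have h1 := ih ⟨_, r.mem⟩ (by show (Dg (swap _ _ _)).card = k; omega)
      rw [r.H_eq hn] at h1
      rw [← h1]
      apply adj_H hn (φ.map_adj_iff.mpr r.adj.symm)
      rw [Dg_card_map hn hd hW (k + 1) φ E hk, Dg_card_map hn hd hW k φ ⟨_, r.mem⟩
        (by show (Dg (swap _ _ _)).card = k; omega)]
    have hsub : H (φ E).1 ⊆ (H E.1).image (sg hn hd hW φ) := by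
      intro x hx
      have h1 := key _ _ r1 hx
      have h2 := key _ _ r2 hx
      rw [mem_image] at h1 h2
      obtain ⟨a, ha, rfl⟩ := h1
      obtain ⟨b, hb, hab⟩ := h2
      have hab' := hinj hab
      subst hab'
      rw [mem_image]
      refine ⟨b, ?_, rfl⟩
      rw [mem_insert] at ha hb
      rcases ha with ha | ha
      · rcases hb with hb | hb
        · exact absurd (ha.symm.trans hb) ht
        · exact hb
      · exact ha
    apply Finset.eq_of_subset_of_card_le hsub
    rw [Finset.card_image_of_injective _ hinj]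
    have h1 := card_H hn E
    have h2 := card_H hn (φ E)
    rw [Dg_card_map hn hd hW (k + 1) φ E hk] at h2
    omega

/-! ### trees with one diagonal -/

/-- trees with one diagonal and the sides `i`, `j` missing -/
def MM (d : ℕ) (i j : ZMod n) : Set (Tr n d) := {E | (Dg E.1).card = 1 ∧ i ∉ H E.1 ∧ j ∉ H E.1}

lemma MM_map (hn : 3 ≤ n) (hd : 3 ≤ d) (hW : WB n d) (φ : cg n d ≃g cg n d) (i j : ZMod n) :
    (MM d i j).ncard ≤ (MM d (sg hn hd hW φ i) (sg hn hd hW φ j)).ncard := by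
  rw [← Set.ncard_image_of_injective (MM d i j) φ.injective]
  apply Set.ncard_le_ncard _ (Set.toFinite _)
  rintro _ ⟨E, ⟨h1, h2, h3⟩, rfl⟩
  refine ⟨Dg_card_map hn hd hW 1 φ E h1, ?_, ?_⟩
  · rw [H_map hn hd hW φ 1 E h1, mem_image]
    rintro ⟨a, ha, hai⟩
    rw [sg_inj hn hd hW φ hai] at ha
    exact h2 ha
  · rw [H_map hn hd hW φ 1 E h1, mem_image]
    rintro ⟨a, ha, hai⟩
    rw [sg_inj hn hd hW φ hai] at ha
    exact h3 ha

/-- a tree is determined by its sides and its diagonals -/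
lemma eq_of_H_Dg {E F : Finset (Sym2 (ZMod n))} (h1 : H E = H F) (h2 : Dg E = Dg F) : E = F := by
  have key : ∀ {E F : Finset (Sym2 (ZMod n))}, H E = H F → Dg E = Dg F → E ⊆ F := by
    intro E F h1 h2 e he
    by_cases hs : e ∈ sides
    · obtain ⟨i, rfl⟩ := mem_sides.mp hs
      have : i ∈ H E := mem_H.mpr he
      rw [h1] at this
      exact mem_H.mp this
    · have : e ∈ Dg E := by rw [Dg, mem_filter]; exact ⟨he, hs⟩
      rw [h2] at this
      exact (mem_Dg.mp this).1
  exact Finset.Subset.antisymm (key h1 h2) (key h1.symm h2.symm)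

lemma exists_edge_at (hn : 3 ≤ n) {E : Finset (Sym2 (ZMod n))} (h : (gr E).Connected) (v : ZMod n) :
    ∃ w, s(v, w) ∈ E := by
  have hne : v ≠ v + 1 := by
    intro h
    exact one_ne_zero' hn (by simpa using h.symm)
  obtain ⟨u, hu⟩ : ∃ u, u = v + 1 := ⟨_, rfl⟩
  rw [← hu] at hne
  obtain ⟨p⟩ := h.preconnected v u
  cases p with
  | nil => exact absurd rfl hne
  | cons hadj p' => exact ⟨_, (gr_adj.mp hadj).1⟩

/-- if both sides at `v` are missing, the unique diagonal contains `v` -/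
lemma diag_at (hn : 3 ≤ n) {E : Tr n d} {e : Sym2 (ZMod n)} (hD : Dg E.1 = {e}) {v : ZMod n}
    (h1 : v ∉ H E.1) (h2 : v - 1 ∉ H E.1) : v ∈ e := by
  obtain ⟨w, hw⟩ := exists_edge_at hn E.2.conn v
  have hs : s(v, w) ∉ sides := by
    intro hs
    obtain ⟨i, hi⟩ := mem_sides.mp hs
    have hv : v ∈ side i := by rw [hi]; exact Sym2.mem_mk_left _ _
    rw [← hi] at hw
    unfold side at hv
    rw [Sym2.mem_iff] at hv
    rcases hv with hv | hv
    · subst hv; exact h1 (mem_H.mpr hw)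
    · apply h2
      rw [hv, add_sub_cancel_right]
      exact mem_H.mpr hw
  have : s(v, w) ∈ Dg E.1 := by rw [Dg, mem_filter]; exact ⟨hw, hs⟩
  rw [hD, mem_singleton] at this
  rw [← this]; exact Sym2.mem_mk_left _ _

lemma H_of_MM (hn : 3 ≤ n) {i j : ZMod n} (hij : i ≠ j) {E : Tr n d} (hE : E ∈ MM d i j) :
    H E.1 = (univ.erase i).erase j := by
  obtain ⟨h1, h2, h3⟩ := hE
  apply Finset.eq_of_subset_of_card_le
  · intro x hx
    rw [mem_erase, mem_erase]
    refine ⟨?_, ?_, mem_univ _⟩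
    · rintro rfl; exact h3 hx
    · rintro rfl; exact h2 hx
  · rw [Finset.card_erase_of_mem (by rw [mem_erase]; exact ⟨hij.symm, mem_univ _⟩),
      Finset.card_erase_of_mem (mem_univ _), Finset.card_univ, ZMod.card]
    have := card_H hn E
    omega

lemma MM_adjacent (hn : 4 ≤ n) (i : ZMod n) : (MM d i (i + 1)).ncard ≤ n - 3 := by
  classical
  have hn3 : 3 ≤ n := by omega
  have hii : i ≠ i + 1 := by
    intro h; exact one_ne_zero' hn3 (by simpa using h.symm)
  let X : Finset (ZMod n) := ((univ.erase i).erase (i + 1)).erase (i + 1 + 1)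
  have hX : X.card = n - 3 := by
    have h1 : i + 1 + 1 ≠ i + 1 := by
      intro h; exact one_ne_zero' hn3 (by simpa using h)
    have h2 : i + 1 + 1 ≠ i := by
      intro h
      apply two_ne_zero' hn3
      have : i + 1 + 1 - i = 0 := by rw [h]; ring
      have h3 : (i + 1 + 1 - i : ZMod n) = 2 := by ring
      rw [← h3, this]
    simp only [X]
    rw [Finset.card_erase_of_mem (by rw [mem_erase, mem_erase]; exact ⟨h1, h2, mem_univ _⟩),
      Finset.card_erase_of_mem (by rw [mem_erase]; exact ⟨hii.symm, mem_univ _⟩),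
      Finset.card_erase_of_mem (mem_univ _), Finset.card_univ, ZMod.card]
    omega
  have hd : ∀ E ∈ MM d i (i + 1), ∃ x ∈ X, Dg E.1 = {s(i + 1, x)} := by
    intro E hE
    obtain ⟨e, he⟩ := Finset.card_eq_one.mp hE.1
    have hv := diag_at hn3 he (v := i + 1) hE.2.2 (by rw [add_sub_cancel_right]; exact hE.2.1)
    obtain ⟨x, rfl⟩ := hv
    refine ⟨x, ?_, he⟩
    have hmem : s(i + 1, x) ∈ Dg E.1 := by rw [he]; exact mem_singleton_self _
    rw [mem_Dg] at hmem
    simp only [X, mem_erase, mem_univ, and_true]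
    refine ⟨?_, ?_, ?_⟩
    · rintro rfl
      exact hmem.2 (i + 1) rfl
    · rintro rfl
      exact E.2.loopless _ hmem.1 (by simp)
    · rintro rfl
      exact hmem.2 x (by unfold side; exact Sym2.eq_swap)
  -- injection
  choose! f hfX hf using hd
  rw [← hX, ← Set.ncard_coe_finset X]
  apply Set.ncard_le_ncard_of_injOn f (fun E hE => hfX E hE)
  intro E hE F hF h
  apply Subtype.ext
  apply eq_of_H_Dg
  · rw [H_of_MM hn3 hii hE, H_of_MM hn3 hii hF]
  · rw [hf E hE, hf F hF, h]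

lemma MM_far (hn : 4 ≤ n) (hd : 3 ≤ d) (i : ZMod n) {t : ℕ} (ht : 2 ≤ t) (htn : t + 2 ≤ n) :
    n - 2 ≤ (MM d i (i + (t : ZMod n))).ncard := by
  classical
  have hn3 : 3 ≤ n := by omega
  set a : ZMod n := i + 1 with ha
  have hia : a + ((n - 1 : ℕ) : ZMod n) = i := by
    have h1 := sub_one_off a
    have h2 : a + ((n - 1 : ℕ) : ZMod n) + 1 - 1 = a - 1 := by rw [h1]
    simpa [ha] using h2
  have hta : i + (t : ZMod n) = a + ((t - 1 : ℕ) : ZMod n) := by
    rw [ha, Nat.cast_sub (by omega)]; push_cast; ring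
  let xx : ℕ → ℕ := fun z => if z ≤ t - 1 then z else 0
  let yy : ℕ → ℕ := fun z => if z ≤ t - 1 then n - 1 else z
  have hxy : ∀ z ∈ Finset.Ico 1 (n - 1), xx z ≤ t - 1 ∧ t - 1 < yy z ∧ yy z < n ∧ xx z + 2 ≤ yy z ∧
      (xx z ≠ 0 ∨ yy z ≠ n - 1) := by
    intro z hz
    rw [Finset.mem_Ico] at hz
    simp only [xx, yy]
    split <;> omega
  have hmem : ∀ z ∈ Finset.Ico 1 (n - 1), Mem d (Tri a (xx z) (t - 1) (yy z)) := by
    intro z hz
    obtain ⟨h1, h2, h3, h4, _⟩ := hxy z hz
    exact Tri_mem hn3 hd a h1 h2 h3 h4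
  let g : ℕ → Tr n d := fun z => if hz : z ∈ Finset.Ico 1 (n - 1) then ⟨_, hmem z hz⟩ else PP hn3 hd 0
  have hg : ∀ z (hz : z ∈ Finset.Ico 1 (n - 1)), g z = ⟨_, hmem z hz⟩ := by
    intro z hz
    simp only [g, dif_pos hz]
  have h1 : ((Finset.Ico 1 (n - 1) : Finset ℕ) : Set ℕ).ncard = n - 2 := by
    rw [Set.ncard_coe_finset, Nat.card_Ico]; omega
  rw [← h1]
  apply Set.ncard_le_ncard_of_injOn g _ _ (Set.toFinite _)
  · intro z hz
    rw [mem_coe] at hz
    rw [hg z hz]
    obtain ⟨h1, h2, h3, h4, h5⟩ := hxy z hz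
    have hns := cross_not_side hn3 a h4 h3 h5
    refine ⟨?_, ?_, ?_⟩
    · apply le_antisymm (Tri_Dg _ _ _ _)
      apply Finset.card_pos.mpr
      refine ⟨s(a + (xx z : ZMod n), a + (yy z : ZMod n)), ?_⟩
      rw [mem_Dg]
      exact ⟨Finset.mem_insert_self _ _, hns⟩
    · rw [mem_H]
      intro h
      unfold Tri swap at h
      simp only [mem_insert, mem_erase] at h
      rcases h with h | h
      · exact hns _ h
      · rw [hia, side_mem_Pt hn3] at h
        exact h.2 rfl
    · rw [mem_H, hta]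
      intro h
      unfold Tri swap at h
      simp only [mem_insert, mem_erase] at h
      rcases h with h | h
      · exact hns _ h
      · exact h.1 rfl
  · intro z hz z' hz' h
    rw [mem_coe] at hz hz'
    rw [hg z hz, hg z' hz'] at h
    have h' := congrArg Subtype.val h
    simp only at h'
    obtain ⟨h1, h2, h3, h4, h5⟩ := hxy z hz
    obtain ⟨h1', h2', h3', h4', h5'⟩ := hxy z' hz'
    obtain ⟨_, e2⟩ := swap_inj (Tri_side hn3 a h1 h2 h3) (Tri_side hn3 a h1' h2' h3')
      (Tri_new hn3 a h4 h3) (Tri_new hn3 a h4' h3') h'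
    rw [Sym2.eq_iff] at e2
    rw [Finset.mem_Ico] at hz hz'
    rcases e2 with ⟨e3, e4⟩ | ⟨e3, e4⟩
    · rw [add_cast_inj a (by omega) (by omega)] at e3 e4
      simp only [xx, yy] at e3 e4
      split at e3 <;> split at e3 <;> simp_all <;> omega
    · rw [add_cast_inj a (by omega) (by omega)] at e3 e4
      omega

lemma MM_comm (i j : ZMod n) : MM d i j = MM d j i := by
  ext E; simp only [MM, Set.mem_setOf_eq]; tauto

/-- far sides go to far sides -/
lemma sg_far (hn : 4 ≤ n) (hd : 3 ≤ d) (hW : WB n d) (φ : cg n d ≃g cg n d) {i j : ZMod n}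
    (h1 : j ≠ i) (h2 : j ≠ i + 1) (h3 : i ≠ j + 1) :
    sg (by omega) hd hW φ j ≠ sg (by omega) hd hW φ i + 1 ∧
    sg (by omega) hd hW φ i ≠ sg (by omega) hd hW φ j + 1 := by
  obtain ⟨t, ht, rfl⟩ := exists_off i j
  have t0 : t ≠ 0 := by rintro rfl; exact h1 (by simp)
  have t1 : t ≠ 1 := by rintro rfl; exact h2 (by simp)
  have t2 : t ≠ n - 1 := by
    rintro rfl
    exact h3 (sub_one_off i).symm
  have hfar := MM_far (d := d) hn hd i (t := t) (by omega) (by omega)
  have hle := hfar.trans (MM_map (d := d) (by omega) hd hW φ i (i + (t : ZMod n)))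
  constructor
  · intro h
    rw [h] at hle
    have := MM_adjacent (d := d) hn (sg (by omega) hd hW φ i)
    omega
  · intro h
    rw [h, MM_comm] at hle
    have := MM_adjacent (d := d) hn (sg (by omega) hd hW φ (i + (t : ZMod n)))
    omega

lemma sg_step (hn : 4 ≤ n) (hd : 3 ≤ d) (hW : WB n d) (φ : cg n d ≃g cg n d) (i : ZMod n) :
    sg (by omega) hd hW φ (i + 1) = sg (by omega) hd hW φ i + 1 ∨
    sg (by omega) hd hW φ (i + 1) = sg (by omega) hd hW φ i - 1 := by
  have hn3 : 3 ≤ n := by omega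
  by_contra hcon
  push Not at hcon
  obtain ⟨c1, c2⟩ := hcon
  have hne : sg hn3 hd hW φ (i + 1) ≠ sg hn3 hd hW φ i := by
    intro h
    have := sg_inj hn3 hd hW φ h
    exact one_ne_zero' hn3 (by simpa using this)
  have := sg_far hn hd hW φ.symm (i := sg hn3 hd hW φ i) (j := sg hn3 hd hW φ (i + 1)) hne c1
    (by intro h; exact c2 (by rw [h]; ring))
  rw [sg_symm, sg_symm] at this
  exact this.1 rfl

lemma sg_form (hn : 4 ≤ n) (hd : 3 ≤ d) (hW : WB n d) (φ : cg n d ≃g cg n d) :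
    (∀ i, sg (by omega) hd hW φ i = sg (by omega) hd hW φ 0 + i) ∨
    (∀ i, sg (by omega) hd hW φ i = sg (by omega) hd hW φ 0 - i) := by
  have hn3 : 3 ≤ n := by omega
  have step := sg_step hn hd hW φ
  have two : ∀ i : ZMod n, sg hn3 hd hW φ (i + 1 + 1) ≠ sg hn3 hd hW φ i := by
    intro i h
    have := sg_inj hn3 hd hW φ h
    apply two_ne_zero' hn3
    have h2 : i + 1 + 1 - i = 0 := by rw [this]; ring
    have h3 : (i + 1 + 1 - i : ZMod n) = 2 := by ring
    rw [← h3, h2]
  have h01 := step 0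
  rw [zero_add] at h01
  rcases h01 with h01 | h01
  · left
    have key : ∀ k : ℕ, sg hn3 hd hW φ (k : ZMod n) = sg hn3 hd hW φ 0 + (k : ZMod n) ∧
        sg hn3 hd hW φ ((k : ZMod n) + 1) = sg hn3 hd hW φ 0 + ((k : ZMod n) + 1) := by
      intro k
      induction k with
      | zero => simp [h01]
      | succ k ih =>
        refine ⟨by push_cast; exact ih.2, ?_⟩
        push_cast
        rcases step ((k : ZMod n) + 1) with h | h
        · rw [h, ih.2]; ring
        · exfalso
          apply two (k : ZMod n)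
          rw [h, ih.2, ih.1]; ring
    intro i
    have := (key i.val).1
    simpa using this
  · right
    have key : ∀ k : ℕ, sg hn3 hd hW φ (k : ZMod n) = sg hn3 hd hW φ 0 - (k : ZMod n) ∧
        sg hn3 hd hW φ ((k : ZMod n) + 1) = sg hn3 hd hW φ 0 - ((k : ZMod n) + 1) := by
      intro k
      induction k with
      | zero => simp [h01]
      | succ k ih =>
        refine ⟨by push_cast; exact ih.2, ?_⟩
        push_cast
        rcases step ((k : ZMod n) + 1) with h | h
        · exfalso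
          apply two (k : ZMod n)
          rw [h, ih.2, ih.1]; ring
        · rw [h, ih.2]; ring
    intro i
    have := (key i.val).1
    simpa using this

end Pool.Agent.Work.MP_cf88b2_co
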