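import Mathlib

set_option autoImplicit false

namespace Pool.Agent.Work.MP_cf88b2_co

open Finset

theorem dist_le_card {V : Type*} [Fintype V] (G : SimpleGraph V) (hG : G.Connected) (v y : V)
    [DecidablePred fun z => G.dist v z < G.dist v y] :
    G.dist v y ≤ (univ.filter (fun z => G.dist v z < G.dist v y)).card := by
  classical
  obtain ⟨p, hp, hlen⟩ := hG.exists_path_of_dist v y
  have hinj : Set.InjOn p.getVert {i | i ≤ p.length} := hp.getVert_injOn
  calc G.dist v y = (range (G.dist v y)).card := (card_range _).symm
    _ ≤ (univ.filter (fun z => G.dist v z < G.dist v y)).card := by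
        apply card_le_card_of_injOn p.getVert
        · intro i hi
          have hi' : i < G.dist v y := by simpa using hi
          have : G.dist v (p.getVert i) ≤ i := by
            calc G.dist v (p.getVert i) ≤ (p.take i).length := SimpleGraph.dist_le _
              _ ≤ i := by rw [SimpleGraph.Walk.take_length]; exact min_le_left _ _
          simp only [coe_filter, mem_univ, true_and, Set.mem_setOf_eq]
          omega
        · intro i hi j hj hij
          have hi' : i < G.dist v y := by simpa using hi
          have hj' : j < G.dist v y := by simpa using hj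
          exact hinj (by simp only [Set.mem_setOf_eq]; omega)
            (by simp only [Set.mem_setOf_eq]; omega) hij

theorem two_sum_dist_le {V : Type*} [Fintype V] (G : SimpleGraph V) (hG : G.Connected) (v : V) :
    2 * ∑ y : V, G.dist v y ≤ (Fintype.card V - 1) * Fintype.card V := by
  classical
  set N := Fintype.card V with hN
  have h1 : ∑ y : V, G.dist v y
      ≤ ((univ : Finset (V × V)).filter (fun q => G.dist v q.2 < G.dist v q.1)).card := by
    calc ∑ y : V, G.dist v y
        ≤ ∑ y : V, (univ.filter (fun z => G.dist v z < G.dist v y)).card :=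
          sum_le_sum (fun y _ => dist_le_card G hG v y)
      _ = ((univ : Finset V).sigma
            (fun y => univ.filter (fun z => G.dist v z < G.dist v y))).card := by
          rw [card_sigma]
      _ ≤ _ := by
          apply card_le_card_of_injOn (fun x => (x.1, x.2))
          · rintro ⟨y, z⟩ h
            simpa using h
          · rintro ⟨y, z⟩ - ⟨y', z'⟩ - h
            simp only [Prod.mk.injEq] at h
            obtain ⟨rfl, rfl⟩ := h
            rfl
  have h2 : ((univ : Finset (V × V)).filter (fun q => G.dist v q.2 < G.dist v q.1)).card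
      = ((univ : Finset (V × V)).filter (fun q => G.dist v q.1 < G.dist v q.2)).card := by
    apply card_bij (fun q _ => (q.2, q.1))
    · rintro ⟨a, b⟩ h; simpa using h
    · rintro ⟨a, b⟩ - ⟨a', b'⟩ - h
      simp only [Prod.mk.injEq] at h
      rw [h.1, h.2]
    · rintro ⟨a, b⟩ h
      exact ⟨(b, a), by simpa using h, rfl⟩
  have h3 : ((univ : Finset (V × V)).filter (fun q => G.dist v q.2 < G.dist v q.1)).card
      + ((univ : Finset (V × V)).filter (fun q => G.dist v q.1 < G.dist v q.2)).card
      ≤ (univ : Finset V).offDiag.card := by
    rw [← card_union_of_disjoint]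
    · apply card_le_card
      rintro ⟨a, b⟩ h
      rw [mem_union, mem_filter, mem_filter] at h
      rw [mem_offDiag]
      refine ⟨mem_univ _, mem_univ _, ?_⟩
      intro hab
      have hab' : a = b := hab
      rw [hab'] at h
      simp at h
    · rw [disjoint_filter]
      intro q _ h
      omega
  rw [offDiag_card, card_univ, ← hN] at h3
  have h4 : (N - 1) * N = N * N - N := by
    rw [Nat.sub_mul, one_mul]
  rw [h4]
  omega

/-- W: the Wiener index of a connected graph on `n` vertices is at most that of the path. -/
theorem wiener_le {V : Type*} [Fintype V] (G : SimpleGraph V) (hG : G.Connected) :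
    ∑ x : V, ∑ y : V, G.dist x y ≤ ∑ k ∈ Finset.range (Fintype.card V), k * (k + 1) := by
  classical
  induction hn : Fintype.card V using Nat.strong_induction_on generalizing V with
  | _ n ih =>
    rcases Nat.lt_or_ge n 2 with h2 | h2
    · have hsub : Subsingleton V := Fintype.card_le_one_iff_subsingleton.1 (by omega)
      have : ∑ x : V, ∑ y : V, G.dist x y = 0 := by
        apply sum_eq_zero
        intro x _
        apply sum_eq_zero
        intro y _
        rw [Subsingleton.elim y x, SimpleGraph.dist_self]
      rw [this]
      exact Nat.zero_le _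
    · have hnt : Nontrivial V := Fintype.one_lt_card_iff_nontrivial.1 (by omega)
      obtain ⟨v, hv⟩ := hG.exists_connected_induce_compl_singleton_of_finite_nontrivial
      set G' := G.induce ({v}ᶜ : Set V) with hG'
      have hcard : Fintype.card ({v}ᶜ : Set V) = n - 1 := by
        rw [Fintype.card_compl_set, Set.card_singleton, hn]
      have hrec := ih (n - 1) (by omega) G' hv hcard
      have hdist : ∀ x y : ({v}ᶜ : Set V), G.dist x y ≤ G'.dist x y := by
        intro x y
        obtain ⟨p, hp⟩ := hv.exists_walk_length_eq_dist x y
        calc G.dist x y ≤ (p.map (SimpleGraph.Embedding.induce _).toHom).length :=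
              SimpleGraph.dist_le _
          _ = G'.dist x y := by rw [SimpleGraph.Walk.length_map, hp]
      have hsplit : ∀ g : V → ℕ, ∑ x : V, g x = g v + ∑ x : ({v}ᶜ : Set V), g x := by
        intro g
        rw [← Finset.add_sum_erase _ _ (mem_univ v)]
        congr 1
        apply Finset.sum_subtype
        intro x
        simp
      have e1 : ∑ x : V, ∑ y : V, G.dist x y
          = 2 * ∑ y : V, G.dist v y + ∑ x : ({v}ᶜ : Set V), ∑ y : ({v}ᶜ : Set V), G.dist x y := by
        rw [hsplit (fun x => ∑ y : V, G.dist x y)]
        have e2 : ∀ x : ({v}ᶜ : Set V), ∑ y : V, G.dist x y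
            = G.dist v x + ∑ y : ({v}ᶜ : Set V), G.dist x y := by
          intro x
          rw [hsplit (fun y => G.dist x y), SimpleGraph.dist_comm]
        rw [sum_congr rfl (fun x _ => e2 x), sum_add_distrib]
        have e3 : ∑ y : V, G.dist v y = ∑ y : ({v}ᶜ : Set V), G.dist v y := by
          rw [hsplit (fun y => G.dist v y), SimpleGraph.dist_self, zero_add]
        rw [e3]
        ring
      have hv2 := two_sum_dist_le G hG v
      rw [hn] at hv2
      obtain ⟨m, rfl⟩ : ∃ m, n = m + 1 := ⟨n - 1, by omega⟩
      rw [sum_range_succ, e1]
      have e4 : ∑ x : ({v}ᶜ : Set V), ∑ y : ({v}ᶜ : Set V), G.dist x y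
          ≤ ∑ x : ({v}ᶜ : Set V), ∑ y : ({v}ᶜ : Set V), G'.dist x y :=
        sum_le_sum (fun x _ => sum_le_sum (fun y _ => hdist x y))
      have e5 : m + 1 - 1 = m := by omega
      rw [e5] at hrec hv2
      calc _ ≤ m * (m + 1) + ∑ k ∈ range m, k * (k + 1) :=
            Nat.add_le_add hv2 (e4.trans hrec)
        _ = _ := by ring

end Pool.Agent.Work.MP_cf88b2_co
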