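import Pool.Agent.Work.MP_cf88b2_co.Dih
import Pool.Agent.Work.MP_cf88b2_co.Geo
import Pool.Agent.Work.MP_cf88b2_co.Wiener
import Pool.Agent.Work.MP_cf88b2_co.Defs

set_option autoImplicit false

namespace Pool.Agent.Work.MP_cf88b2_co

open Finset

variable {n : ℕ} [NeZero n] {d : ℕ}

/-- position in the plane of a label -/
def pos (Q : Fin n → ℝ × ℝ) (x : ZMod n) : ℝ × ℝ := Q ⟨x.val, ZMod.val_lt x⟩

lemma val_off (a : ZMod n) {i : ℕ} (hi : i < n) :
    (a + (i : ZMod n)).val = if a.val + i < n then a.val + i else a.val + i - n := by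
  rw [ZMod.val_add, ZMod.val_cast_of_lt hi]
  have h := ZMod.val_lt a
  split
  · rename_i h1; exact Nat.mod_eq_of_lt h1
  · rename_i h1
    rw [Nat.mod_eq_sub_mod (by omega)]
    exact Nat.mod_eq_of_lt (by omega)

lemma cross_meet (Q : Fin n → ℝ × ℝ)
    (hQ : ∀ i j k : Fin n, i < j → j < k → 0 < det3 (Q i) (Q j) (Q k))
    (a : ZMod n) {i j k l : ℕ} (hij : i < j) (hjk : j < k) (hkl : k < l) (hl : l < n) :
    (segment ℝ (pos Q (a + (i : ZMod n))) (pos Q (a + (k : ZMod n))) ∩
      segment ℝ (pos Q (a + (j : ZMod n))) (pos Q (a + (l : ZMod n)))).Nonempty := by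
  have hi := val_off a (i := i) (by omega)
  have hj := val_off a (i := j) (by omega)
  have hk := val_off a (i := k) (by omega)
  have hl' := val_off a (i := l) (by omega)
  have ha := ZMod.val_lt a
  unfold pos
  -- the four positions
  generalize hI : (⟨(a + (i : ZMod n)).val, ZMod.val_lt _⟩ : Fin n) = I
  generalize hJ : (⟨(a + (j : ZMod n)).val, ZMod.val_lt _⟩ : Fin n) = J
  generalize hK : (⟨(a + (k : ZMod n)).val, ZMod.val_lt _⟩ : Fin n) = K
  generalize hL : (⟨(a + (l : ZMod n)).val, ZMod.val_lt _⟩ : Fin n) = L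
  have vI : I.val = (a + (i : ZMod n)).val := by rw [← hI]
  have vJ : J.val = (a + (j : ZMod n)).val := by rw [← hJ]
  have vK : K.val = (a + (k : ZMod n)).val := by rw [← hK]
  have vL : L.val = (a + (l : ZMod n)).val := by rw [← hL]
  rw [hi] at vI
  rw [hj] at vJ
  rw [hk] at vK
  rw [hl'] at vL
  have cases4 : (I < J ∧ J < K ∧ K < L) ∨ (L < I ∧ I < J ∧ J < K) ∨ (K < L ∧ L < I ∧ I < J) ∨
      (J < K ∧ K < L ∧ L < I) := by
    simp only [Fin.lt_def]
    split at vI <;> split at vJ <;> split at vK <;> split at vL <;> omega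
  rcases cases4 with ⟨h1, h2, h3⟩ | ⟨h1, h2, h3⟩ | ⟨h1, h2, h3⟩ | ⟨h1, h2, h3⟩
  · exact (segments_meet Q hQ h1 h2 h3).1
  · have := (segments_meet Q hQ h1 h2 h3).1
    rw [Set.inter_comm, segment_symm ℝ (Q J) (Q L)]
    exact this
  · have := (segments_meet Q hQ h1 h2 h3).1
    rw [segment_symm ℝ (Q I) (Q K), segment_symm ℝ (Q J) (Q L)]
    exact this
  · have := (segments_meet Q hQ h1 h2 h3).1
    rw [Set.inter_comm, segment_symm ℝ (Q I) (Q K)]
    exact this

/-- meeting segments with four distinct ends cross -/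
lemma meet_cross (Q : Fin n → ℝ × ℝ)
    (hQ : ∀ i j k : Fin n, i < j → j < k → 0 < det3 (Q i) (Q j) (Q k))
    {p q r s : Fin n} (hpq : p < q) (hrs : r < s) (hpr : p < r) (hqr : q ≠ r) (hqs : q ≠ s)
    (h : (segment ℝ (Q p) (Q q) ∩ segment ℝ (Q r) (Q s)).Nonempty) : r < q ∧ q < s := by
  rcases lt_trichotomy q r with h1 | h1 | h1
  · have := (segments_meet Q hQ hpq h1 hrs).2.1
    rw [this] at h
    exact absurd h (by simp)
  · exact absurd h1 hqr
  · refine ⟨h1, ?_⟩
    rcases lt_trichotomy q s with h2 | h2 | h2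
    · exact h2
    · exact absurd h2 hqs
    · have := (segments_meet Q hQ hpr hrs h2).2.2
      rw [this] at h
      exact absurd h (by simp)

/-- the labels as elements of `ZMod n` -/
def lab : Fin n ≃ ZMod n where
  toFun i := (i.val : ZMod n)
  invFun x := ⟨x.val, ZMod.val_lt x⟩
  left_inv i := by apply Fin.ext; simp [ZMod.val_cast_of_lt i.isLt]
  right_inv x := by simp

lemma pos_lab (Q : Fin n → ℝ × ℝ) (i : Fin n) : pos Q (lab i) = Q i := by
  unfold pos
  congr 1
  exact lab.left_inv i

section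

variable (f : Fin n ≃ ZMod n)

open Classical in
/-- edge set of a graph on `Fin n` transported by `f` -/
noncomputable def eS (T : SimpleGraph (Fin n)) : Finset (Sym2 (ZMod n)) :=
  univ.filter (fun e => ∃ a b, T.Adj a b ∧ e = s(f a, f b))

lemma mem_eS {T : SimpleGraph (Fin n)} {x y : ZMod n} :
    s(x, y) ∈ eS f T ↔ T.Adj (f.symm x) (f.symm y) := by
  classical
  unfold eS
  rw [mem_filter]
  constructor
  · rintro ⟨_, a, b, hab, h⟩
    rw [Sym2.eq_iff] at h
    rcases h with ⟨rfl, rfl⟩ | ⟨rfl, rfl⟩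
    · simpa using hab
    · simpa using hab.symm
  · intro h
    exact ⟨mem_univ _, _, _, h, by simp⟩

lemma eS_inj : Function.Injective (eS f) := by
  intro T U h
  ext a b
  have h1 := mem_eS f (T := T) (x := f a) (y := f b)
  have h2 := mem_eS f (T := U) (x := f a) (y := f b)
  rw [h] at h1
  simp only [Equiv.symm_apply_apply] at h1 h2
  rw [← h1, h2]

lemma eS_loopless (T : SimpleGraph (Fin n)) : ∀ e ∈ eS f T, ¬ e.IsDiag := by
  intro e he
  induction e using Sym2.ind with
  | _ x y =>
  rw [mem_eS] at he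
  rw [Sym2.mk_isDiag_iff]
  rintro rfl
  exact he.ne rfl

/-- iso between the graph and the graph of its transported edge set -/
def isoS (T : SimpleGraph (Fin n)) : T ≃g gr (eS f T) where
  toEquiv := f
  map_rel_iff' := by
    intro a b
    rw [gr_adj, mem_eS]
    simp only [Equiv.symm_apply_apply, ne_eq, EmbeddingLike.apply_eq_iff_eq]
    constructor
    · exact fun h => h.1
    · exact fun h => ⟨h, h.ne⟩

lemma eS_image (T : SimpleGraph (Fin n)) : (eS f T : Set (Sym2 (ZMod n))) = Sym2.map f '' T.edgeSet := by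
  ext e
  rw [mem_coe, Set.mem_image]
  constructor
  · intro he
    induction e using Sym2.ind with
    | _ x y =>
    rw [mem_eS] at he
    exact ⟨s(f.symm x, f.symm y), he, by simp⟩
  · rintro ⟨e', he', rfl⟩
    induction e' using Sym2.ind with
    | _ a b =>
    rw [Sym2.map_mk, mem_eS]
    simpa using he'

lemma eS_inter_card (T U : SimpleGraph (Fin n)) :
    (eS f T ∩ eS f U).card = (T.edgeSet ∩ U.edgeSet).ncard := by
  rw [← Set.ncard_coe_finset, Finset.coe_inter, eS_image, eS_image,
    ← Set.image_inter (Sym2.map.injective f.injective),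
    Set.ncard_image_of_injective _ (Sym2.map.injective f.injective)]

lemma eS_card (T : SimpleGraph (Fin n)) : (eS f T).card = T.edgeSet.ncard := by
  have := eS_inter_card f T T
  rwa [Finset.inter_self, Set.inter_self] at this

lemma eS_tree (T : SimpleGraph (Fin n)) :
    T.IsTree ↔ (gr (eS f T)).Connected ∧ (eS f T).card + 1 = n := by
  rw [SimpleGraph.isTree_iff_connected_and_card, (isoS f T).connected_iff, eS_card]
  have h1 : Nat.card T.edgeSet = T.edgeSet.ncard := rfl
  rw [h1, Nat.card_eq_fintype_card, Fintype.card_fin]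

lemma eS_deg (T : SimpleGraph (Fin n)) (v : ZMod n) :
    dgr (eS f T) v = (T.neighborSet (f.symm v)).ncard := by
  classical
  unfold dgr
  have h : ((eS f T).filter (fun e => v ∈ e) : Finset (Sym2 (ZMod n))) =
      ((T.neighborSet (f.symm v)).toFinset.image (fun w => s(v, f w))) := by
    ext e
    rw [mem_filter, mem_image]
    constructor
    · rintro ⟨h1, h2⟩
      obtain ⟨w, rfl⟩ := h2
      rw [mem_eS] at h1
      exact ⟨f.symm w, by simpa using h1, by simp⟩
    · rintro ⟨w, hw, rfl⟩
      refine ⟨?_, Sym2.mem_mk_left _ _⟩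
      rw [mem_eS]
      simpa using hw
  rw [h, Finset.card_image_of_injective, Set.ncard_eq_toFinset_card']
  intro w w' hww
  rw [Sym2.eq_iff] at hww
  rcases hww with ⟨_, h1⟩ | ⟨h1, h2⟩
  · exact f.injective h1
  · apply f.injective
    rw [h2, h1]

end

lemma drawing_iff {P : Fin n → ℝ × ℝ} (s : Fin n ≃ Fin n)
    (hQ : ∀ i j k : Fin n, i < j → j < k → 0 < det3 (P (s i)) (P (s j)) (P (s k)))
    (T : SimpleGraph (Fin n)) :
    PlaneDrawing P T ↔ NC (eS (s.symm.trans lab) T) := by
  set Q : Fin n → ℝ × ℝ := fun i => P (s i) with hQdef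
  have hfs : ∀ x : ZMod n, P ((s.symm.trans lab).symm x) = pos Q x := by
    intro x
    show P (s (lab.symm x)) = Q _
    rfl
  constructor
  · intro hD a i j k l hij hjk hkl hl h1 h2
    rw [mem_eS] at h1 h2
    have hinj := (s.symm.trans (lab (n := n))).symm.injective
    have hne : ∀ x y : ℕ, x < n → y < n → x ≠ y →
        (s.symm.trans lab).symm (a + (x : ZMod n)) ≠ (s.symm.trans lab).symm (a + (y : ZMod n)) := by
      intro x y hx hy hxy h
      have := hinj h
      rw [add_cast_inj a hx hy] at this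
      exact hxy this
    have n1 := hne i j (by omega) (by omega) (by omega)
    have n2 := hne i l (by omega) (by omega) (by omega)
    have n3 := hne k j (by omega) (by omega) (by omega)
    have n4 := hne k l (by omega) (by omega) (by omega)
    have h3 := hD _ _ _ _ h1 h2 (by
      rw [Ne, Sym2.eq_iff]
      rintro (⟨h, _⟩ | ⟨h, _⟩)
      · exact n1 h
      · exact n2 h)
    rw [hfs, hfs, hfs, hfs] at h3
    obtain ⟨x, hx⟩ := cross_meet Q hQ a hij hjk hkl hl
    obtain ⟨v, ⟨hv1, hv2⟩, _⟩ := h3 hx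
    simp only [Set.mem_insert_iff, Set.mem_singleton_iff] at hv1 hv2
    rcases hv1 with rfl | rfl <;> rcases hv2 with h | h
    · exact n1 h
    · exact n2 h
    · exact n3 h
    · exact n4 h
  · intro hN
    -- in terms of positions
    have key : ∀ p q r t : Fin n, T.Adj (s p) (s q) → T.Adj (s r) (s t) → p ≠ r → p ≠ t → q ≠ r → q ≠ t →
        segment ℝ (Q p) (Q q) ∩ segment ℝ (Q r) (Q t) = ∅ := by
      -- sorted version
      have key1 : ∀ p q r t : Fin n, T.Adj (s p) (s q) → T.Adj (s r) (s t) → p < q → r < t → p < r →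
          q ≠ r → q ≠ t → segment ℝ (Q p) (Q q) ∩ segment ℝ (Q r) (Q t) = ∅ := by
        intro p q r t h1 h2 hpq hrt hpr hqr hqt
        by_contra hne
        have hne' := Set.nonempty_iff_ne_empty.mpr hne
        obtain ⟨c1, c2⟩ := meet_cross Q hQ hpq hrt hpr hqr hqt hne'
        refine hN 0 p.val r.val q.val t.val hpr c1 c2 t.isLt ?_ ?_
        · rw [mem_eS, zero_add, zero_add]
          have e : ∀ x : Fin n, (s.symm.trans lab).symm ((x.val : ℕ) : ZMod n) = s x := by
            intro x
            show s (lab.symm (lab x)) = s x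
            rw [Equiv.symm_apply_apply]
          rw [e, e]; exact h1
        · rw [mem_eS, zero_add, zero_add]
          have e : ∀ x : Fin n, (s.symm.trans lab).symm ((x.val : ℕ) : ZMod n) = s x := by
            intro x
            show s (lab.symm (lab x)) = s x
            rw [Equiv.symm_apply_apply]
          rw [e, e]; exact h2
      have key2 : ∀ p q r t : Fin n, T.Adj (s p) (s q) → T.Adj (s r) (s t) → p < q → r < t → p ≠ r → p ≠ t →
          q ≠ r → q ≠ t → segment ℝ (Q p) (Q q) ∩ segment ℝ (Q r) (Q t) = ∅ := by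
        intro p q r t h1 h2 hpq hrt hpr hpt hqr hqt
        rcases lt_or_gt_of_ne hpr with h | h
        · exact key1 p q r t h1 h2 hpq hrt h hqr hqt
        · rw [Set.inter_comm]
          exact key1 r t p q h2 h1 hrt hpq h hpt.symm hqt.symm
      have key3 : ∀ p q r t : Fin n, T.Adj (s p) (s q) → T.Adj (s r) (s t) → r < t → p ≠ r → p ≠ t →
          q ≠ r → q ≠ t → segment ℝ (Q p) (Q q) ∩ segment ℝ (Q r) (Q t) = ∅ := by
        intro p q r t h1 h2 hrt hpr hpt hqr hqt
        have hpq : p ≠ q := by rintro rfl; exact h1.ne rfl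
        rcases lt_or_gt_of_ne hpq with h | h
        · exact key2 p q r t h1 h2 h hrt hpr hpt hqr hqt
        · rw [segment_symm ℝ (Q p) (Q q)]
          exact key2 q p r t h1.symm h2 h hrt hqr hqt hpr hpt
      intro p q r t h1 h2 hpr hpt hqr hqt
      have hrt : r ≠ t := by rintro rfl; exact h2.ne rfl
      rcases lt_or_gt_of_ne hrt with h | h
      · exact key3 p q r t h1 h2 h hpr hpt hqr hqt
      · rw [segment_symm ℝ (Q r) (Q t)]
        exact key3 p q t r h1 h2.symm h hpt hpr hqt hqr
    have common : ∀ a b c : Fin n, a ≠ b → a ≠ c → b ≠ c →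
        segment ℝ (P a) (P b) ∩ segment ℝ (P a) (P c) = {P a} := by
      intro a b c h1 h2 h3
      have := segments_common Q hQ (a := s.symm a) (b := s.symm b) (c := s.symm c)
        (by simpa using h1) (by simpa using h2) (by simpa using h3)
      simpa [hQdef] using this
    intro a b c e hab hce hne x hx
    by_cases hac : a = c
    · subst hac
      have hbe : b ≠ e := by rintro rfl; exact hne rfl
      rw [common a b e hab.ne hce.ne hbe] at hx
      exact ⟨a, ⟨by simp, by simp⟩, hx.symm⟩
    by_cases hae : a = e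
    · subst hae
      have hbc : b ≠ c := by rintro rfl; exact hne Sym2.eq_swap
      rw [segment_symm ℝ (P c) (P a), common a b c hab.ne hce.ne.symm hbc] at hx
      exact ⟨a, ⟨by simp, by simp⟩, hx.symm⟩
    by_cases hbc : b = c
    · subst hbc
      rw [segment_symm ℝ (P a) (P b), common b a e hab.ne.symm hce.ne hae] at hx
      exact ⟨b, ⟨by simp, by simp⟩, hx.symm⟩
    by_cases hbe : b = e
    · subst hbe
      rw [segment_symm ℝ (P a) (P b), segment_symm ℝ (P c) (P b), common b a c hab.ne.symm hce.ne.symm hac] at hx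
      exact ⟨b, ⟨by simp, by simp⟩, hx.symm⟩
    have := key (s.symm a) (s.symm b) (s.symm c) (s.symm e) (by simpa using hab) (by simpa using hce)
      (by simpa using hac) (by simpa using hae) (by simpa using hbc) (by simpa using hbe)
    simp only [hQdef, Equiv.apply_symm_apply] at this
    rw [this] at hx
    exact absurd hx (by simp)

lemma mem_iff {P : Fin n → ℝ × ℝ} (s : Fin n ≃ Fin n)
    (hQ : ∀ i j k : Fin n, i < j → j < k → 0 < det3 (P (s i)) (P (s j)) (P (s k)))
    (T : SimpleGraph (Fin n)) :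
    (T.IsTree ∧ PlaneDrawing P T ∧ ∀ v, (T.neighborSet v).ncard ≤ d) ↔
      Mem d (eS (s.symm.trans lab) T) := by
  rw [drawing_iff s hQ, eS_tree (s.symm.trans lab)]
  constructor
  · rintro ⟨⟨h1, h2⟩, h3, h4⟩
    exact ⟨eS_loopless _ T, h1, h2, h3, fun v => by rw [eS_deg]; exact h4 _⟩
  · intro h
    refine ⟨⟨h.conn, h.card⟩, h.nc, fun v => ?_⟩
    have := h.deg ((s.symm.trans lab) v)
    rw [eS_deg] at this
    simpa using this

/-- graph on `Fin n` with a given transported edge set -/
def gT (f : Fin n ≃ ZMod n) (E : Finset (Sym2 (ZMod n))) : SimpleGraph (Fin n) where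
  Adj a b := s(f a, f b) ∈ E ∧ a ≠ b
  symm := ⟨fun a b h => ⟨by rw [Sym2.eq_swap]; exact h.1, h.2.symm⟩⟩
  loopless := ⟨fun a h => h.2 rfl⟩

lemma eS_gT (f : Fin n ≃ ZMod n) {E : Finset (Sym2 (ZMod n))} (hl : ∀ e ∈ E, ¬ e.IsDiag) :
    eS f (gT f E) = E := by
  ext e
  induction e using Sym2.ind with
  | _ x y =>
  rw [mem_eS]
  show (s(f (f.symm x), f (f.symm y)) ∈ E ∧ f.symm x ≠ f.symm y) ↔ _
  simp only [Equiv.apply_symm_apply, ne_eq, EmbeddingLike.apply_eq_iff_eq]
  constructor
  · exact fun h => h.1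
  · intro h
    refine ⟨h, ?_⟩
    rintro rfl
    exact hl _ h (by simp)

/-- the isomorphism from the geometric to the combinatorial tree graph -/
noncomputable def treeIso {P : Fin n → ℝ × ℝ} (s : Fin n ≃ Fin n) (hn : 3 ≤ n)
    (hQ : ∀ i j k : Fin n, i < j → j < k → 0 < det3 (P (s i)) (P (s j)) (P (s k))) :
    treeGraph P d ≃g cg n d where
  toFun T := ⟨eS (s.symm.trans lab) T.1, (mem_iff s hQ T.1).mp T.2⟩
  invFun E := ⟨gT (s.symm.trans lab) E.1, (mem_iff s hQ _).mpr (by
    rw [eS_gT _ E.2.loopless]; exact E.2)⟩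
  left_inv T := by
    apply Subtype.ext
    apply eS_inj (s.symm.trans lab)
    exact eS_gT _ (eS_loopless _ _)
  right_inv E := by
    apply Subtype.ext
    exact eS_gT _ E.2.loopless
  map_rel_iff' := by
    intro T U
    have h0 : ∀ T U : PlaneTree P d, (treeGraph P d).Adj T U ↔ (T ≠ U ∧ (T.1.edgeSet ∩ U.1.edgeSet).ncard = n - 2) :=
      fun _ _ => Iff.rfl
    rw [adj_iff, h0]
    show (eS (s.symm.trans lab) T.1 ∩ eS (s.symm.trans lab) U.1).card + 2 = n ↔ _
    rw [eS_inter_card]
    constructor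
    · intro h
      refine ⟨?_, by omega⟩
      rintro rfl
      rw [Set.inter_self, ← eS_card (s.symm.trans lab)] at h
      have := ((mem_iff s hQ T.1).mp T.2).card
      omega
    · rintro ⟨_, h⟩
      omega

/-- conjugation of automorphism groups -/
def conjIso {V W : Type*} {G : SimpleGraph V} {G' : SimpleGraph W} (e : G ≃g G') :
    (G ≃g G) ≃* (G' ≃g G') where
  toFun φ := (e.symm.trans φ).trans e
  invFun φ := (e.trans φ).trans e.symm
  left_inv φ := by
    ext x : 1
    show e.symm (e (φ (e.symm (e x)))) = φ x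
    simp
  right_inv φ := by
    ext x : 1
    show e (e.symm (φ (e (e.symm x)))) = φ x
    simp
  map_mul' φ ψ := by
    ext x : 1
    show e (φ (ψ (e.symm x))) = e (φ (e.symm (e (ψ (e.symm x)))))
    simp

/-- main theorem, all `n ≥ 4` and `d ≥ 3` -/
theorem main (hn : 4 ≤ n) (hd : 3 ≤ d) (P : Fin n → ℝ × ℝ) (hP : ConvexIndependent ℝ P) :
    Nonempty ((treeGraph P d ≃g treeGraph P d) ≃* DihedralGroup n) := by
  obtain ⟨s, hs⟩ := exists_ccw P hP (by omega)
  have hW : WB n d := by
    intro E
    have := wiener_le (gr E.1) E.2.conn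
    rwa [ZMod.card] at this
  obtain ⟨e⟩ := core hn hd hW
  exact ⟨(conjIso (treeIso (d := d) s (by omega) hs)).trans e⟩

end Pool.Agent.Work.MP_cf88b2_co
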