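import Pool.Agent.Work.MP_cf88b2_co.Paths

set_option autoImplicit false

namespace Pool.Agent.Work.MP_cf88b2_co

open Finset

variable {n : ℕ} [NeZero n] {d : ℕ}

open Classical in
/-- edges exchangeable against `f` -/
noncomputable def fib (d : ℕ) (E : Finset (Sym2 (ZMod n))) (f : Sym2 (ZMod n)) : Finset (Sym2 (ZMod n)) :=
  E.filter (fun e => Mem d (swap E e f))

lemma mem_fib {E : Finset (Sym2 (ZMod n))} {e f : Sym2 (ZMod n)} :
    e ∈ fib d E f ↔ e ∈ E ∧ Mem d (swap E e f) := by
  classical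
  simp [fib]

lemma fib_sub_walk {E : Finset (Sym2 (ZMod n))} (hc : E.card + 1 = n) {x y : ZMod n}
    (p : (gr E).Walk x y) : fib d E s(x, y) ⊆ p.edges.toFinset := by
  intro e he
  rw [mem_fib] at he
  rw [List.mem_toFinset]
  by_contra hp
  have hr : (gr (E.erase e)).Reachable x y := by
    refine ⟨p.transfer (gr (E.erase e)) ?_⟩
    intro e' he'
    have h1 := p.edges_subset_edgeSet he'
    induction e' using Sym2.ind with
    | _ u v =>
    rw [SimpleGraph.mem_edgeSet, gr_adj] at h1 ⊢
    refine ⟨Finset.mem_erase.mpr ⟨?_, h1.1⟩, h1.2⟩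
    rintro rfl
    exact hp he'
  have h2 : (gr (E.erase e)).Connected := by
    apply swap_conn he.2.conn (a := x) (b := y) _ hr
    intro z hz
    rw [mem_erase] at hz
    unfold swap at hz
    rw [mem_insert] at hz
    exact hz.2.resolve_left hz.1
  have h3 := conn_card h2
  rw [Finset.card_erase_of_mem he.1] at h3
  have : 0 < E.card := Finset.card_pos.mpr ⟨_, he.1⟩
  omega

lemma fib_le {E : Finset (Sym2 (ZMod n))} (hconn : (gr E).Connected) (hc : E.card + 1 = n) (x y : ZMod n) :
    (fib d E s(x, y)).card ≤ (gr E).dist x y := by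
  obtain ⟨p, hp⟩ := hconn.exists_walk_length_eq_dist x y
  calc (fib d E s(x, y)).card ≤ p.edges.toFinset.card := Finset.card_le_card (fib_sub_walk hc p)
    _ ≤ p.edges.length := List.toFinset_card_le _
    _ = (gr E).dist x y := by rw [SimpleGraph.Walk.length_edges, hp]

/-- a diagonal spoils one exchange -/
lemma fib_lt (hn : 3 ≤ n) {E : Finset (Sym2 (ZMod n))} (hE : Mem d E) (hne : (Dg E).Nonempty) :
    ∃ w z : ZMod n, w ≠ z ∧ s(w, z) ∉ E ∧ (fib d E s(w, z)).card < (gr E).dist w z := by
  obtain ⟨e, he⟩ := hne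
  obtain ⟨p, q, hpq, hq, h0, rfl⟩ := diag_off hn hE.loopless 0 he
  have heE := (mem_Dg.mp he).1
  -- rotate the base to the first end
  obtain ⟨u, m, hm2, hmn, hch⟩ : ∃ (u : ZMod n) (m : ℕ), 2 ≤ m ∧ m + 2 ≤ n ∧ s(u, u + (m : ZMod n)) ∈ E := by
    refine ⟨0 + (p : ZMod n), q - p, by omega, by omega, ?_⟩
    have : (0 : ZMod n) + (p : ZMod n) + ((q - p : ℕ) : ZMod n) = 0 + (q : ZMod n) := by
      rw [Nat.cast_sub (by omega)]; ring
    rw [this]
    exact heE
  refine ⟨u + ((1 : ℕ) : ZMod n), u + ((m + 1 : ℕ) : ZMod n), ?_, ?_, ?_⟩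
  · rw [Ne, add_cast_inj u (by omega) (by omega)]; omega
  · intro h
    refine hE.nc u 0 1 m (m + 1) (by omega) (by omega) (by omega) (by omega) ?_ h
    simpa using hch
  · have hwz : u + ((1 : ℕ) : ZMod n) ≠ u + ((m + 1 : ℕ) : ZMod n) := by
      rw [Ne, add_cast_inj u (by omega) (by omega)]; omega
    obtain ⟨w, hw⟩ : ∃ w, w = u + ((1 : ℕ) : ZMod n) := ⟨_, rfl⟩
    obtain ⟨z, hz⟩ : ∃ z, z = u + ((m + 1 : ℕ) : ZMod n) := ⟨_, rfl⟩
    rw [← hw, ← hz] at hwz ⊢
    obtain ⟨p, hp⟩ := hE.conn.exists_walk_length_eq_dist w z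
    have hsub := fib_sub_walk (d := d) hE.card p
    cases p with
    | nil => exact absurd rfl hwz
    | @cons _ w' _ hadj p' =>
      have hnot : s(w, w') ∉ fib d E s(w, z) := by
        intro hmem
        rw [mem_fib, hw, hz] at hmem
        refine hmem.2.nc u 0 1 m (m + 1) (by omega) (by omega) (by omega) (by omega) ?_ ?_
        · unfold swap
          rw [mem_insert, mem_erase]
          right
          refine ⟨?_, by simpa using hch⟩
          intro heq
          have h1 : u + ((1 : ℕ) : ZMod n) ∈ s(u + ((0 : ℕ) : ZMod n), u + (m : ZMod n)) := by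
            rw [heq]; exact Sym2.mem_mk_left _ _
          rw [Sym2.mem_iff] at h1
          rcases h1 with h1 | h1
          · rw [add_cast_inj u (by omega) (by omega)] at h1; omega
          · rw [add_cast_inj u (by omega) (by omega)] at h1; omega
        · exact Finset.mem_insert_self _ _
      have hsub2 : fib d E s(w, z) ⊆ p'.edges.toFinset := by
        intro e' he'
        have := hsub he'
        rw [List.mem_toFinset, SimpleGraph.Walk.edges_cons, List.mem_cons] at this
        rw [List.mem_toFinset]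
        rcases this with h | h
        · subst h; exact absurd he' hnot
        · exact h
      have h1 := Finset.card_le_card hsub2
      have h2 := List.toFinset_card_le p'.edges
      rw [SimpleGraph.Walk.length_edges] at h2
      rw [← hp, SimpleGraph.Walk.length_cons]
      omega

/-! ### sums -/

lemma sum_zmod (f : ZMod n → ℕ) : ∑ x : ZMod n, f x = ∑ k ∈ range n, f (k : ZMod n) := by
  symm
  apply Finset.sum_nbij' (fun k : ℕ => (k : ZMod n)) (fun x : ZMod n => x.val)
  · intro k _; exact mem_univ _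
  · intro x _; exact mem_range.mpr (ZMod.val_lt x)
  · intro k hk; exact ZMod.val_cast_of_lt (mem_range.mp hk)
  · intro x _; simp
  · intro k _; rfl

lemma sum_sym (f : ℕ → ℕ → ℕ) (hs : ∀ x y, f x y = f y x) (h0 : ∀ x, f x x = 0) (N : ℕ) :
    ∑ y ∈ range N, ∑ x ∈ range N, f x y = 2 * ∑ y ∈ range N, ∑ x ∈ range y, f x y := by
  induction N with
  | zero => simp
  | succ N ih =>
    have h1 : ∀ y, ∑ x ∈ range (N + 1), f x y = ∑ x ∈ range N, f x y + f N y := fun y => by
      rw [Finset.sum_range_succ]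
    rw [Finset.sum_range_succ, Finset.sum_range_succ (fun y => ∑ x ∈ range y, f x y)]
    simp only [h1]
    rw [Finset.sum_add_distrib, ih, h0]
    have h2 : ∑ x ∈ range N, f N x = ∑ x ∈ range N, f x N := Finset.sum_congr rfl (fun x _ => hs _ _)
    rw [h2]
    ring

lemma sum_tri (N : ℕ) : 2 * ∑ y ∈ range N, ∑ x ∈ range y, (y - x) = ∑ k ∈ range N, k * (k + 1) := by
  rw [Finset.mul_sum]
  apply Finset.sum_congr rfl
  intro y _
  have : ∑ x ∈ range y, (y - x) = ∑ x ∈ range y, (x + 1) := by
    rw [← Finset.sum_range_reflect]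
    apply Finset.sum_congr rfl
    intro x hx
    rw [mem_range] at hx
    omega
  rw [this, Finset.sum_add_distrib]
  simp only [sum_const, card_range, smul_eq_mul, mul_one]
  have h2 := Finset.sum_range_id_mul_two y
  rcases y with _ | y
  · simp
  · simp only [Nat.add_sub_cancel] at h2
    nlinarith

lemma Dn_eq (hn : 1 ≤ n) : Dn n + (n - 1) = ∑ y ∈ range n, ∑ x ∈ range y, (y - x) := by
  have : ∀ N, Dn N + (N - 1) = ∑ y ∈ range N, ∑ x ∈ range y, (y - x) := by
    intro N
    induction N with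
    | zero => simp [Dn]
    | succ N ih =>
      rw [Finset.sum_range_succ, ← ih, Dn, Finset.sum_range_succ, Dn]
      rcases N with _ | N
      · simp
      · rw [Finset.sum_range_succ (fun x => N + 1 - x) N]
        simp only [Nat.add_sub_cancel]
        omega
  exact this n

open Classical in
lemma card_edges {E : Finset (Sym2 (ZMod n))} (hl : ∀ e ∈ E, ¬ e.IsDiag) :
    E.card = ∑ y ∈ range n, ∑ x ∈ range y, (if s((x : ZMod n), (y : ZMod n)) ∈ E then 1 else 0) := by
  have h1 : ∀ y, ∑ x ∈ range y, (if s((x : ZMod n), (y : ZMod n)) ∈ E then 1 else 0) =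
      ((range y).filter (fun x : ℕ => s((x : ZMod n), (y : ZMod n)) ∈ E)).card := by
    intro y; rw [Finset.card_filter]
  simp only [h1]
  rw [← Finset.card_sigma]
  symm
  apply Finset.card_bij (fun p _ => s((p.2 : ZMod n), (p.1 : ZMod n)))
  · rintro ⟨y, x⟩ hp
    simp only [mem_sigma, mem_filter, mem_range] at hp
    exact hp.2.2
  · rintro ⟨y, x⟩ hp ⟨y', x'⟩ hp' h
    simp only [mem_sigma, mem_filter, mem_range] at hp hp' h
    rw [Sym2.eq_iff] at h
    rcases h with ⟨h1, h2⟩ | ⟨h1, h2⟩
    · rw [cast_inj (by omega) (by omega)] at h1 h2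
      subst h1; subst h2; rfl
    · rw [cast_inj (by omega) (by omega)] at h1 h2
      omega
  · intro e he
    induction e using Sym2.ind with
    | _ u v =>
    have hne : u ≠ v := by
      rintro rfl
      exact hl _ he (by simp)
    have hv : u.val ≠ v.val := fun h => hne (ZMod.val_injective n h)
    rcases Nat.lt_or_gt_of_ne hv with h | h
    · refine ⟨⟨v.val, u.val⟩, ?_, ?_⟩
      · simp only [mem_sigma, mem_filter, mem_range]
        refine ⟨ZMod.val_lt v, h, ?_⟩
        simpa using he
      · simp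
    · refine ⟨⟨u.val, v.val⟩, ?_, ?_⟩
      · simp only [mem_sigma, mem_filter, mem_range]
        refine ⟨ZMod.val_lt u, h, ?_⟩
        rw [Sym2.eq_swap]
        simpa using he
      · simp only [ZMod.natCast_val, ZMod.cast_id', id_eq]
        exact Sym2.eq_swap

open Classical in
lemma dN_le (E : Tr n d) : dN E ≤ ∑ y ∈ range n, ∑ x ∈ range y,
    (if s((x : ZMod n), (y : ZMod n)) ∈ E.1 then 0 else (fib d E.1 s((x : ZMod n), (y : ZMod n))).card) := by
  let S : Finset (Σ _ : ℕ, Σ _ : ℕ, Sym2 (ZMod n)) :=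
    (range n).sigma (fun y => ((range y)).sigma (fun x =>
      if s((x : ZMod n), (y : ZMod n)) ∈ E.1 then ∅ else fib d E.1 s((x : ZMod n), (y : ZMod n))))
  have hS : S.card = ∑ y ∈ range n, ∑ x ∈ range y,
    (if s((x : ZMod n), (y : ZMod n)) ∈ E.1 then 0 else (fib d E.1 s((x : ZMod n), (y : ZMod n))).card) := by
    simp only [S, Finset.card_sigma]
    apply Finset.sum_congr rfl
    intro y _
    apply Finset.sum_congr rfl
    intro x _
    split <;> simp
  rw [← hS]
  unfold dN
  rw [← Set.ncard_coe_finset S]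
  -- map back: neighbours are images
  have hsub : {F | (cg n d).Adj E F} ⊆
      (fun p : (Σ _ : ℕ, Σ _ : ℕ, Sym2 (ZMod n)) =>
        if h : Mem d (swap E.1 p.2.2 s((p.2.1 : ZMod n), (p.1 : ZMod n))) then
          (⟨swap E.1 p.2.2 s((p.2.1 : ZMod n), (p.1 : ZMod n)), h⟩ : Tr n d) else E) '' (S : Set _) := by
    intro F hF
    rw [Set.mem_setOf_eq] at hF
    obtain ⟨e, f, he, hf, hFe⟩ := exists_swap hF
    have hfd : ¬ f.IsDiag := by
      apply F.2.loopless
      rw [hFe]; exact Finset.mem_insert_self _ _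
    obtain ⟨x, y, hxy, hy, rfl⟩ : ∃ x y : ℕ, x < y ∧ y < n ∧ f = s((x : ZMod n), (y : ZMod n)) := by
      induction f using Sym2.ind with
      | _ u v =>
      have hne : u ≠ v := by
        rintro rfl
        exact hfd (by simp)
      have hv : u.val ≠ v.val := fun h => hne (ZMod.val_injective n h)
      rcases Nat.lt_or_gt_of_ne hv with h | h
      · exact ⟨u.val, v.val, h, ZMod.val_lt v, by simp⟩
      · exact ⟨v.val, u.val, h, ZMod.val_lt u, by simp [Sym2.eq_swap]⟩
    have hm : Mem d (swap E.1 e s((x : ZMod n), (y : ZMod n))) := by rw [← hFe]; exact F.2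
    refine ⟨⟨y, x, e⟩, ?_, ?_⟩
    · simp only [S, coe_sigma, Set.mem_sigma_iff, mem_coe, mem_range, hxy, hy, true_and]
      rw [if_neg hf, mem_fib]
      exact ⟨he, hm⟩
    · simp only
      rw [dif_pos hm]
      exact Subtype.ext hFe.symm
  exact (Set.ncard_le_ncard hsub (Set.toFinite _)).trans (Set.ncard_image_le (Set.toFinite _))

lemma dN_lt (hn : 3 ≤ n) (E : Tr n d) (hne : (Dg E.1).Nonempty)
    (hW : ∑ x : ZMod n, ∑ y : ZMod n, (gr E.1).dist x y ≤ ∑ k ∈ range n, k * (k + 1)) :
    dN E < Dn n := by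
  classical
  have hconn := E.2.conn
  have h1 := dN_le E
  -- comparison function
  let g : ℕ → ℕ → ℕ := fun x y => if s((x : ZMod n), (y : ZMod n)) ∈ E.1 then 1 else
    (fib d E.1 s((x : ZMod n), (y : ZMod n))).card
  have hg : ∑ y ∈ range n, ∑ x ∈ range y, g x y = E.1.card + ∑ y ∈ range n, ∑ x ∈ range y,
    (if s((x : ZMod n), (y : ZMod n)) ∈ E.1 then 0 else (fib d E.1 s((x : ZMod n), (y : ZMod n))).card) := by
    rw [card_edges E.2.loopless, ← Finset.sum_add_distrib]
    apply Finset.sum_congr rfl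
    intro y _
    rw [← Finset.sum_add_distrib]
    apply Finset.sum_congr rfl
    intro x _
    simp only [g]
    split <;> simp
  have hle : ∀ x y : ℕ, x < y → y < n → g x y ≤ (gr E.1).dist (x : ZMod n) (y : ZMod n) := by
    intro x y hxy hy
    simp only [g]
    split
    · apply hconn.pos_dist_of_ne
      rw [Ne, cast_inj (by omega) hy]; omega
    · exact fib_le hconn E.2.card _ _
  obtain ⟨w, z, hwz, hwzE, hlt⟩ := fib_lt hn E.2 hne
  have hex : ∃ x y : ℕ, x < y ∧ y < n ∧ g x y < (gr E.1).dist (x : ZMod n) (y : ZMod n) := by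
    have hv : w.val ≠ z.val := fun h => hwz (ZMod.val_injective n h)
    rcases Nat.lt_or_gt_of_ne hv with h | h
    · refine ⟨w.val, z.val, h, ZMod.val_lt z, ?_⟩
      simp only [g, ZMod.natCast_val, ZMod.cast_id', id_eq]
      rw [if_neg hwzE]; exact hlt
    · refine ⟨z.val, w.val, h, ZMod.val_lt w, ?_⟩
      simp only [g, ZMod.natCast_val, ZMod.cast_id', id_eq]
      rw [if_neg (by rw [Sym2.eq_swap]; exact hwzE), SimpleGraph.dist_comm, Sym2.eq_swap]; exact hlt
  obtain ⟨x0, y0, hx0, hy0, hlt0⟩ := hex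
  have hsum : ∑ y ∈ range n, ∑ x ∈ range y, g x y <
      ∑ y ∈ range n, ∑ x ∈ range y, (gr E.1).dist (x : ZMod n) (y : ZMod n) := by
    apply Finset.sum_lt_sum
    · intro y hy
      apply Finset.sum_le_sum
      intro x hx
      exact hle x y (mem_range.mp hx) (mem_range.mp hy)
    · refine ⟨y0, mem_range.mpr hy0, ?_⟩
      apply Finset.sum_lt_sum
      · intro x hx
        exact hle x y0 (mem_range.mp hx) hy0
      · exact ⟨x0, mem_range.mpr hx0, hlt0⟩
  have hW2 : 2 * ∑ y ∈ range n, ∑ x ∈ range y, (gr E.1).dist (x : ZMod n) (y : ZMod n) ≤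
      2 * ∑ y ∈ range n, ∑ x ∈ range y, (y - x) := by
    rw [sum_tri, ← sum_sym (fun x y => (gr E.1).dist (x : ZMod n) (y : ZMod n))
      (fun x y => SimpleGraph.dist_comm) (fun x => SimpleGraph.dist_self)]
    refine le_trans (le_of_eq ?_) hW
    rw [sum_zmod]
    apply Finset.sum_congr rfl
    intro y _
    rw [sum_zmod]
    apply Finset.sum_congr rfl
    intro x _
    exact SimpleGraph.dist_comm
  have hD := Dn_eq (n := n) (by omega)
  have hcard := E.2.card
  omega

end Pool.Agent.Work.MP_cf88b2_co
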